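import Mathlib

/-! Counting with hidden values that are found one after the other, and tails. -/

set_option autoImplicit false
set_option linter.unusedSectionVars false

namespace Pool.Agent.W908.MS

open Finset

variable {X : Type} [Fintype X] [DecidableEq X] {V : X → Type} [∀ x, Fintype (V x)]
  [∀ x, Nonempty (V x)]

/-- the same values in `S` -/
def Eqo (S : Finset X) (ω ω' : ∀ x, V x) : Prop := ∀ x ∈ S, ω x = ω' x

/-- The set `S` can be found step by step. -/
inductive Reach (H : Finset X → (∀ x, V x) → ∀ x, V x → Prop) (ω : ∀ x, V x) : Finset X → Prop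
  | nil : Reach H ω ∅
  | step {S : Finset X} {x : X} : Reach H ω S → x ∉ S → H S ω x (ω x) → Reach H ω (insert x S)

variable {H : Finset X → (∀ x, V x) → ∀ x, V x → Prop}

theorem Reach.congr (hH : ∀ S ω ω', Eqo S ω ω' → ∀ x v, H S ω x v ↔ H S ω' x v) {ω ω' : ∀ x, V x}
    {S : Finset X} (h : Reach H ω S) (he : Eqo S ω ω') : Reach H ω' S := by
  induction h with
  | nil => exact Reach.nil
  | @step S x h1 hx hh ih =>
    have h2 : Eqo S ω ω' := fun y hy => he y (Finset.mem_insert_of_mem hy)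
    refine (ih h2).step hx ?_
    rw [← he x (Finset.mem_insert_self _ _)]
    exact (hH S ω ω' h2 _ _).1 hh

theorem Reach.last {ω : ∀ x, V x} {S : Finset X} (h : Reach H ω S) (hS : S ≠ ∅) :
    ∃ x ∈ S, Reach H ω (S.erase x) ∧ H (S.erase x) ω x (ω x) := by
  cases h with
  | nil => exact absurd rfl hS
  | @step S x h1 hx hh =>
    refine ⟨x, Finset.mem_insert_self _ _, ?_⟩
    rw [Finset.erase_insert hx]
    exact ⟨h1, hh⟩

theorem Reach.sub {ω : ∀ x, V x} {S : Finset X} (h : Reach H ω S) : ∀ r ≤ S.card,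
    ∃ S', S'.card = r ∧ Reach H ω S' := by
  induction h with
  | nil =>
    intro r hr
    have h0 : r = 0 := by simpa using hr
    exact ⟨∅, by simp [h0], Reach.nil⟩
  | @step S x h1 hx hh ih =>
    intro r hr
    rw [Finset.card_insert_of_notMem hx] at hr
    by_cases h2 : r ≤ S.card
    · exact ih r h2
    · exact ⟨insert x S, by rw [Finset.card_insert_of_notMem hx]; omega, h1.step hx hh⟩

open Classical in
theorem coord {P : (∀ x, V x) → Prop} {x : X} {Q : (∀ x, V x) → V x → Prop} {ρ : ℝ}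
    (hP : ∀ ω v, P ω → P (Function.update ω x v))
    (hQ : ∀ ω v w, Q ω w → Q (Function.update ω x v) w)
    (hB : ∀ ω, ((univ.filter (fun w => Q ω w)).card : ℝ) ≤ ρ * Fintype.card (V x)) :
    ((univ.filter (fun ω => P ω ∧ Q ω (ω x))).card : ℝ) ≤
      ρ * (univ.filter (fun ω => P ω)).card := by
  have h1 : (univ.filter (fun ω => P ω ∧ Q ω (ω x))).card * Fintype.card (V x) =
      ((univ.filter (fun ω : ∀ x, V x => P ω ∧ Q ω (ω x))) ×ˢ (univ : Finset (V x))).card := by
    rw [Finset.card_product, Finset.card_univ]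
  have h2 : ((univ.filter (fun ω : ∀ x, V x => P ω ∧ Q ω (ω x))) ×ˢ
      (univ : Finset (V x))).card ≤
      ((univ.filter (fun ω : ∀ x, V x => P ω)).sigma (fun ω => univ.filter (fun w => Q ω w))).card := by
    refine Finset.card_le_card_of_injOn (fun p => ⟨Function.update p.1 x p.2, p.1 x⟩) ?_ ?_
    · intro p hp
      rw [Finset.mem_coe, Finset.mem_product, Finset.mem_filter] at hp
      rw [Finset.mem_coe, Finset.mem_sigma, Finset.mem_filter, Finset.mem_filter]
      exact ⟨⟨Finset.mem_univ _, hP _ _ hp.1.2.1⟩, Finset.mem_univ _, hQ _ _ _ hp.1.2.2⟩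
    · rintro ⟨ω, v⟩ _ ⟨ω', v'⟩ _ h
      simp only [Sigma.mk.injEq, heq_eq_eq] at h
      obtain ⟨e1, e2⟩ := h
      have hv : v = v' := by
        have := congrFun e1 x
        rwa [Function.update_self, Function.update_self] at this
      have hk : ω = ω' := by
        funext y
        by_cases hy : y = x
        · rw [hy]
          exact e2
        · have := congrFun e1 y
          rwa [Function.update_of_ne hy, Function.update_of_ne hy] at this
      rw [hk, hv]
  have hc : (0 : ℝ) < Fintype.card (V x) := by exact_mod_cast Fintype.card_pos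
  rw [← h1, Finset.card_sigma] at h2
  have h3 : ((∑ ω ∈ univ.filter (fun ω : ∀ x, V x => P ω),
      (univ.filter (fun w => Q ω w)).card : ℕ) : ℝ) ≤
      (univ.filter (fun ω : ∀ x, V x => P ω)).card * (ρ * Fintype.card (V x)) := by
    push_cast
    refine (Finset.sum_le_sum fun ω _ => hB ω).trans ?_
    rw [Finset.sum_const, nsmul_eq_mul]
  have h4 : ((univ.filter (fun ω => P ω ∧ Q ω (ω x))).card : ℝ) * Fintype.card (V x) ≤
      (univ.filter (fun ω : ∀ x, V x => P ω)).card * (ρ * Fintype.card (V x)) :=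
    le_trans (by exact_mod_cast h2) h3
  refine le_of_mul_le_mul_right ?_ hc
  linarith

open Classical in
theorem card_reach (hH : ∀ S ω ω', Eqo S ω ω' → ∀ x v, H S ω x v ↔ H S ω' x v) {ρ : X → ℝ}
    (hρ : ∀ x, 0 ≤ ρ x)
    (hB : ∀ S ω x, ((univ.filter (fun w => H S ω x w)).card : ℝ) ≤ ρ x * Fintype.card (V x)) :
    ∀ (s : ℕ) (S : Finset X), S.card = s → ((univ.filter (fun ω => Reach H ω S)).card : ℝ) ≤
      s.factorial * (∏ x ∈ S, ρ x) * Fintype.card (∀ x, V x) := by
  intro s
  induction s with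
  | zero =>
    intro S hS
    rw [Finset.card_eq_zero] at hS
    subst hS
    rw [Finset.prod_empty, Nat.factorial_zero, Nat.cast_one, one_mul, one_mul]
    exact_mod_cast Finset.card_le_univ _
  | succ s ih =>
    intro S hS
    have hne : S ≠ ∅ := by
      rintro rfl
      simp at hS
    have h1 : (univ.filter (fun ω => Reach H ω S)) ⊆ S.biUnion (fun x =>
        univ.filter (fun ω : ∀ x, V x => Reach H ω (S.erase x) ∧ H (S.erase x) ω x (ω x))) := by
      intro ω hω
      rw [Finset.mem_filter] at hω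
      obtain ⟨x, hx, h2⟩ := hω.2.last hne
      rw [Finset.mem_biUnion]
      exact ⟨x, hx, Finset.mem_filter.2 ⟨Finset.mem_univ _, h2⟩⟩
    have h2 := (Finset.card_le_card h1).trans Finset.card_biUnion_le
    have hE : ∀ (x : X) (ω : ∀ x, V x) (v : V x), Eqo (S.erase x) ω (Function.update ω x v) := by
      intro x ω v y hy
      exact (Function.update_of_ne (Finset.ne_of_mem_erase hy) _ _).symm
    have h3 : ∀ x ∈ S, ((univ.filter (fun ω : ∀ x, V x => Reach H ω (S.erase x) ∧
        H (S.erase x) ω x (ω x))).card : ℝ) ≤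
        s.factorial * (∏ y ∈ S, ρ y) * Fintype.card (∀ x, V x) := by
      intro x hx
      have h4 := coord (P := fun ω : ∀ x, V x => Reach H ω (S.erase x))
        (Q := fun ω w => H (S.erase x) ω x w) (x := x) (ρ := ρ x)
        (fun ω v h => h.congr hH (hE x ω v))
        (fun ω v w h => (hH _ _ _ (hE x ω v) _ _).1 h) (fun ω => hB _ _ _)
      have h5 := ih (S.erase x) (by rw [Finset.card_erase_of_mem hx, hS]; rfl)
      refine h4.trans ((mul_le_mul_of_nonneg_left h5 (hρ x)).trans (le_of_eq ?_))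
      rw [← Finset.mul_prod_erase S ρ hx]
      ring
    have h4 : ((univ.filter (fun ω => Reach H ω S)).card : ℝ) ≤
        ∑ x ∈ S, ((univ.filter (fun ω : ∀ x, V x => Reach H ω (S.erase x) ∧
        H (S.erase x) ω x (ω x))).card : ℝ) := by exact_mod_cast h2
    refine h4.trans ((Finset.sum_le_sum h3).trans (le_of_eq ?_))
    rw [Finset.sum_const, hS, nsmul_eq_mul, Nat.factorial_succ]
    push_cast
    ring

/-- the sums of the products over the sets with `s` elements -/
theorem esym_le {ρ : X → ℝ} (hρ : ∀ x, 0 ≤ ρ x) : ∀ s : ℕ,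
    (s.factorial : ℝ) * ∑ S ∈ powersetCard s (univ : Finset X), ∏ x ∈ S, ρ x ≤
      (∑ x, ρ x) ^ s := by
  intro s
  induction s with
  | zero => simp
  | succ s ih =>
    have h0 : ∀ S : Finset X, 0 ≤ ∏ x ∈ S, ρ x := fun S => Finset.prod_nonneg fun x _ => hρ x
    have hσ : 0 ≤ ∑ x, ρ x := Finset.sum_nonneg fun x _ => hρ x
    have h1 : ((s : ℝ) + 1) * ∑ S ∈ powersetCard (s + 1) (univ : Finset X), ∏ x ∈ S, ρ x ≤
        (∑ x, ρ x) * ∑ S ∈ powersetCard s (univ : Finset X), ∏ x ∈ S, ρ x := by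
      have h2 : ((s : ℝ) + 1) * ∑ S ∈ powersetCard (s + 1) (univ : Finset X), ∏ x ∈ S, ρ x =
          ∑ p ∈ (powersetCard (s + 1) (univ : Finset X)).sigma (fun S => S),
            ρ p.2 * ∏ x ∈ p.1.erase p.2, ρ x := by
        rw [Finset.sum_sigma, Finset.mul_sum]
        refine Finset.sum_congr rfl fun S hS => ?_
        have h3 : ∀ x ∈ S, ρ x * ∏ y ∈ S.erase x, ρ y = ∏ y ∈ S, ρ y :=
          fun x hx => Finset.mul_prod_erase S ρ hx
        rw [Finset.sum_congr rfl h3, Finset.sum_const, (Finset.mem_powersetCard.1 hS).2,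
          nsmul_eq_mul]
        push_cast
        ring
      have h3 : (∑ x, ρ x) * ∑ S ∈ powersetCard s (univ : Finset X), ∏ x ∈ S, ρ x =
          ∑ p ∈ (univ : Finset X) ×ˢ powersetCard s (univ : Finset X),
            ρ p.1 * ∏ x ∈ p.2, ρ x := by
        rw [Finset.sum_product, Finset.sum_mul]
        refine Finset.sum_congr rfl fun x _ => ?_
        rw [Finset.mul_sum]
      rw [h2, h3]
      have h4 : ∑ p ∈ (powersetCard (s + 1) (univ : Finset X)).sigma (fun S => S),
            ρ p.2 * ∏ x ∈ p.1.erase p.2, ρ x =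
          ∑ p ∈ ((powersetCard (s + 1) (univ : Finset X)).sigma (fun S => S)).image
            (fun p => ((p.2, p.1.erase p.2) : X × Finset X)), ρ p.1 * ∏ x ∈ p.2, ρ x := by
        rw [Finset.sum_image]
        rintro ⟨S, x⟩ hp ⟨S', x'⟩ hp' h
        rw [Finset.mem_coe, Finset.mem_sigma] at hp hp'
        simp only [Prod.mk.injEq] at h
        obtain ⟨rfl, h⟩ := h
        have e1 : insert x (S.erase x) = S := Finset.insert_erase hp.2
        have e2 : insert x (S'.erase x) = S' := Finset.insert_erase hp'.2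
        rw [← e1, ← e2, h]
      rw [h4]
      refine Finset.sum_le_sum_of_subset_of_nonneg ?_ fun p _ _ => mul_nonneg (hρ _) (h0 _)
      intro p hp
      rw [Finset.mem_image] at hp
      obtain ⟨⟨S, x⟩, hS, rfl⟩ := hp
      rw [Finset.mem_sigma] at hS
      rw [Finset.mem_product, Finset.mem_powersetCard]
      refine ⟨Finset.mem_univ _, Finset.subset_univ _, ?_⟩
      show (S.erase x).card = s
      rw [Finset.card_erase_of_mem hS.2, (Finset.mem_powersetCard.1 hS.1).2]
      rfl
    calc ((s + 1).factorial : ℝ) * ∑ S ∈ powersetCard (s + 1) (univ : Finset X), ∏ x ∈ S, ρ x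
        = s.factorial * (((s : ℝ) + 1) *
          ∑ S ∈ powersetCard (s + 1) (univ : Finset X), ∏ x ∈ S, ρ x) := by
          rw [Nat.factorial_succ]
          push_cast
          ring
      _ ≤ s.factorial * ((∑ x, ρ x) *
          ∑ S ∈ powersetCard s (univ : Finset X), ∏ x ∈ S, ρ x) :=
          mul_le_mul_of_nonneg_left h1 (Nat.cast_nonneg _)
      _ = (∑ x, ρ x) * (s.factorial *
          ∑ S ∈ powersetCard s (univ : Finset X), ∏ x ∈ S, ρ x) := by ring
      _ ≤ (∑ x, ρ x) * (∑ x, ρ x) ^ s := mul_le_mul_of_nonneg_left ih hσ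
      _ = _ := by ring

/-- the values of `ω` in `S` and of `ω'` outside -/
def mixS (S : Finset X) (ω ω' : ∀ x, V x) : ∀ x, V x := fun x => if x ∈ S then ω x else ω' x

theorem eqo_mix (S : Finset X) (ω ω' : ∀ x, V x) : Eqo S ω (mixS S ω ω') := by
  intro x hx
  unfold mixS
  rw [if_pos hx]

open Classical in
theorem card_indep (S : Finset X) {P Q : (∀ x, V x) → Prop} {τ : ℝ}
    (hP : ∀ ω ω', Eqo S ω ω' → P ω → P ω')
    (hQ : ∀ ω, ((univ.filter (fun ω' => Q (mixS S ω ω'))).card : ℝ) ≤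
      τ * Fintype.card (∀ x, V x)) :
    ((univ.filter (fun ω => P ω ∧ Q ω)).card : ℝ) ≤
      τ * (univ.filter (fun ω : ∀ x, V x => P ω)).card := by
  have hc : (0 : ℝ) < Fintype.card (∀ x, V x) := by exact_mod_cast Fintype.card_pos
  have h2 : ((univ.filter (fun ω : ∀ x, V x => P ω ∧ Q ω)) ×ˢ
      (univ : Finset (∀ x, V x))).card ≤
      ((univ.filter (fun ω : ∀ x, V x => P ω)).sigma
        (fun ω => univ.filter (fun ω' => Q (mixS S ω ω')))).card := by
    refine Finset.card_le_card_of_injOn (fun p => ⟨mixS S p.1 p.2, mixS S p.2 p.1⟩) ?_ ?_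
    · intro p hp
      rw [Finset.mem_coe, Finset.mem_product, Finset.mem_filter] at hp
      rw [Finset.mem_coe, Finset.mem_sigma, Finset.mem_filter, Finset.mem_filter]
      refine ⟨⟨Finset.mem_univ _, hP _ _ (eqo_mix S p.1 p.2) hp.1.2.1⟩, Finset.mem_univ _, ?_⟩
      have e : mixS S (mixS S p.1 p.2) (mixS S p.2 p.1) = p.1 := by
        funext x
        unfold mixS
        by_cases hx : x ∈ S
        · simp only [if_pos hx]
        · simp only [if_neg hx]
      show Q (mixS S (mixS S p.1 p.2) (mixS S p.2 p.1))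
      rw [e]
      exact hp.1.2.2
    · rintro ⟨ω, v⟩ _ ⟨ω', v'⟩ _ h
      simp only [Sigma.mk.injEq, heq_eq_eq] at h
      obtain ⟨e1, e2⟩ := h
      rw [Prod.mk.injEq]
      constructor
      · funext x
        by_cases hx : x ∈ S
        · have := congrFun e1 x
          unfold mixS at this
          simpa only [if_pos hx] using this
        · have := congrFun e2 x
          unfold mixS at this
          simpa only [if_neg hx] using this
      · funext x
        by_cases hx : x ∈ S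
        · have := congrFun e2 x
          unfold mixS at this
          simpa only [if_pos hx] using this
        · have := congrFun e1 x
          unfold mixS at this
          simpa only [if_neg hx] using this
  rw [Finset.card_product, Finset.card_univ, Finset.card_sigma] at h2
  have h3 : ((∑ ω ∈ univ.filter (fun ω : ∀ x, V x => P ω),
      (univ.filter (fun ω' => Q (mixS S ω ω'))).card : ℕ) : ℝ) ≤
      (univ.filter (fun ω : ∀ x, V x => P ω)).card * (τ * Fintype.card (∀ x, V x)) := by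
    push_cast
    refine (Finset.sum_le_sum fun ω _ => hQ ω).trans ?_
    rw [Finset.sum_const, nsmul_eq_mul]
  have h4 : ((univ.filter (fun ω : ∀ x, V x => P ω ∧ Q ω)).card : ℝ) *
      Fintype.card (∀ x, V x) ≤
      (univ.filter (fun ω : ∀ x, V x => P ω)).card * (τ * Fintype.card (∀ x, V x)) :=
    le_trans (by exact_mod_cast h2) h3
  refine le_of_mul_le_mul_right ?_ hc
  linarith

open Classical in
/-- the tail -/
theorem card_tail (S : Finset X) {m : ∀ x, V x → ℝ} (hm : ∀ x v, 0 ≤ m x v) {θ δ : ℝ}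
    (hθ : 0 < θ) {E : ℝ} (hE : ∑ x, (∑ v, m x v) / Fintype.card (V x) ≤ E) :
    ((univ.filter (fun ω : ∀ x, V x => (∀ x, x ∉ S → m x (ω x) ≤ θ) ∧
      δ < ∑ x ∈ Sᶜ, m x (ω x))).card : ℝ) ≤
      Real.exp (-(δ / θ) + 2 * E / θ) * Fintype.card (∀ x, V x) := by
  obtain ⟨φ, hφ⟩ : ∃ φ : ∀ x, V x → ℝ, φ = fun x v => 1 + 2 * (m x v / θ) := ⟨_, rfl⟩
  have hφ1 : ∀ x v, 1 ≤ φ x v := by
    intro x v
    rw [hφ]
    have := div_nonneg (hm x v) hθ.le
    simp only
    linarith
  have hexp : ∀ y : ℝ, 0 ≤ y → y ≤ 1 → Real.exp y ≤ 1 + 2 * y := by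
    intro y h0 h1
    have h2 := Real.abs_exp_sub_one_sub_id_le (x := y) (by rw [abs_le]; constructor <;> linarith)
    rw [abs_le] at h2
    nlinarith [h2.2]
  have h1 : ∀ ω : ∀ x, V x, (if (∀ x, x ∉ S → m x (ω x) ≤ θ) ∧ δ < ∑ x ∈ Sᶜ, m x (ω x)
      then (1 : ℝ) else 0) ≤ Real.exp (-(δ / θ)) * ∏ x, φ x (ω x) := by
    intro ω
    split_ifs with h
    · obtain ⟨h1, h2⟩ := h
      have h3 : Real.exp (∑ x ∈ Sᶜ, m x (ω x) / θ) ≤ ∏ x ∈ Sᶜ, φ x (ω x) := by
        rw [Real.exp_sum]
        refine Finset.prod_le_prod (fun x _ => (Real.exp_pos _).le) fun x hx => ?_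
        rw [hφ]
        refine hexp _ (div_nonneg (hm _ _) hθ.le) ?_
        rw [div_le_one hθ]
        exact h1 x (Finset.mem_compl.1 hx)
      have h4 : ∏ x ∈ Sᶜ, φ x (ω x) ≤ ∏ x, φ x (ω x) := by
        rw [← Finset.prod_mul_prod_compl S (fun x => φ x (ω x))]
        have h5 : 1 ≤ ∏ x ∈ S, φ x (ω x) := by
          have := Finset.prod_le_prod (s := S) (f := fun _ => (1 : ℝ)) (g := fun x => φ x (ω x))
            (fun _ _ => zero_le_one) fun x _ => hφ1 x _
          simpa using this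
        refine le_mul_of_one_le_left ?_ h5
        exact Finset.prod_nonneg fun x _ => zero_le_one.trans (hφ1 x _)
      have h5 : 1 ≤ Real.exp (-(δ / θ)) * Real.exp (∑ x ∈ Sᶜ, m x (ω x) / θ) := by
        rw [← Real.exp_add]
        refine Real.one_le_exp ?_
        rw [← Finset.sum_div]
        have := div_le_div_of_nonneg_right h2.le hθ.le
        linarith
      exact h5.trans (mul_le_mul_of_nonneg_left (h3.trans h4) (Real.exp_pos _).le)
    · refine mul_nonneg (Real.exp_pos _).le (Finset.prod_nonneg fun x _ => ?_)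
      exact zero_le_one.trans (hφ1 x _)
  rw [← Finset.sum_boole]
  refine (Finset.sum_le_sum fun ω _ => h1 ω).trans ?_
  rw [← Finset.mul_sum]
  have h2 : ∑ ω : ∀ x, V x, ∏ x, φ x (ω x) = ∏ x, ∑ v, φ x v := by
    rw [Finset.prod_univ_sum, Fintype.piFinset_univ]
  have h3 : ∀ x, ∑ v, φ x v ≤ Fintype.card (V x) *
      Real.exp (2 * ((∑ v, m x v) / Fintype.card (V x)) / θ) := by
    intro x
    have hc : (0 : ℝ) < Fintype.card (V x) := by exact_mod_cast Fintype.card_pos
    have h4 : ∑ v, φ x v = Fintype.card (V x) *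
        (1 + 2 * ((∑ v, m x v) / Fintype.card (V x)) / θ) := by
      rw [hφ]
      simp only
      rw [Finset.sum_add_distrib, Finset.sum_const, Finset.card_univ, nsmul_eq_mul, mul_one,
        ← Finset.mul_sum, ← Finset.sum_div]
      field_simp
    rw [h4]
    apply mul_le_mul_of_nonneg_left _ hc.le
    have := Real.add_one_le_exp (2 * ((∑ v, m x v) / Fintype.card (V x)) / θ)
    linarith
  have h4 : ∏ x, ∑ v, φ x v ≤ Fintype.card (∀ x, V x) * Real.exp (2 * E / θ) := by
    refine (Finset.prod_le_prod (fun x _ => Finset.sum_nonneg fun v _ =>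
      zero_le_one.trans (hφ1 x v)) fun x _ => h3 x).trans ?_
    rw [Finset.prod_mul_distrib, ← Real.exp_sum, Fintype.card_pi]
    push_cast
    apply mul_le_mul_of_nonneg_left _ (Finset.prod_nonneg fun _ _ => Nat.cast_nonneg _)
    apply Real.exp_le_exp.2
    rw [← Finset.sum_div, ← Finset.mul_sum]
    exact div_le_div_of_nonneg_right (mul_le_mul_of_nonneg_left hE (by norm_num)) hθ.le
  rw [h2]
  refine (mul_le_mul_of_nonneg_left h4 (Real.exp_pos _).le).trans (le_of_eq ?_)
  rw [Real.exp_add]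
  ring

open Classical in
/-- The number of the bad cases. -/
theorem card_bad {θ δ E : ℝ} (hθ : 0 < θ) {m : Finset X → (∀ x, V x) → ∀ x, V x → ℝ}
    (hloc : ∀ S ω ω', Eqo S ω ω' → m S ω = m S ω') (hm : ∀ S ω x v, 0 ≤ m S ω x v)
    {ρ : X → ℝ} (hρ : ∀ x, 0 ≤ ρ x)
    (hB : ∀ S ω x, ((univ.filter (fun v => θ < m S ω x v)).card : ℝ) ≤
      ρ x * Fintype.card (V x)) {σ : ℝ} (hσ : ∑ x, ρ x ≤ σ) (hσ2 : σ ≤ 1 / 2)
    (hE : ∀ S ω, ∑ x, (∑ v, m S ω x v) / Fintype.card (V x) ≤ E) (r : ℕ) :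
    ((univ.filter (fun ω : ∀ x, V x => ∃ S,
      Reach (fun S ω x v => θ < m S ω x v) ω S ∧ (r ≤ S.card ∨
        ((∀ x, x ∉ S → m S ω x (ω x) ≤ θ) ∧ δ < ∑ x ∈ Sᶜ, m S ω x (ω x))))).card : ℝ) ≤
      (σ ^ r + 2 * Real.exp (-(δ / θ) + 2 * E / θ)) * Fintype.card (∀ x, V x) := by
  obtain ⟨H, hHd⟩ : ∃ H : Finset X → (∀ x, V x) → ∀ x, V x → Prop,
    H = fun S ω x v => θ < m S ω x v := ⟨_, rfl⟩
  have hH : ∀ S ω ω', Eqo S ω ω' → ∀ x v, H S ω x v ↔ H S ω' x v := by
    intro S ω ω' h x v
    rw [hHd]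
    simp only
    rw [hloc S ω ω' h]
  rw [← hHd]
  have hB' : ∀ S ω x, ((univ.filter (fun w => H S ω x w)).card : ℝ) ≤
      ρ x * Fintype.card (V x) := by
    intro S ω x
    rw [hHd]
    exact hB S ω x
  have hN : ∀ S : Finset X, ((univ.filter (fun ω => Reach H ω S)).card : ℝ) ≤
      S.card.factorial * (∏ x ∈ S, ρ x) * Fintype.card (∀ x, V x) :=
    fun S => card_reach hH hρ hB' S.card S rfl
  have hc : (0 : ℝ) ≤ Fintype.card (∀ x, V x) := Nat.cast_nonneg _
  have hσ0 : 0 ≤ ∑ x, ρ x := Finset.sum_nonneg fun x _ => hρ x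
  have hes : ∀ s : ℕ, (s.factorial : ℝ) * ∑ S ∈ powersetCard s (univ : Finset X),
      ∏ x ∈ S, ρ x ≤ σ ^ s := fun s => (esym_le hρ s).trans (pow_le_pow_left₀ hσ0 hσ s)
  obtain ⟨τ, hτ⟩ : ∃ τ, τ = Real.exp (-(δ / θ) + 2 * E / θ) := ⟨_, rfl⟩
  have hτ0 : 0 ≤ τ := by rw [hτ]; exact (Real.exp_pos _).le
  rw [← hτ]
  obtain ⟨Tl, hTl⟩ : ∃ Tl : Finset X → (∀ x, V x) → Prop, Tl = fun S ω =>
    (∀ x, x ∉ S → m S ω x (ω x) ≤ θ) ∧ δ < ∑ x ∈ Sᶜ, m S ω x (ω x) := ⟨_, rfl⟩
  have hsub : (univ.filter (fun ω : ∀ x, V x => ∃ S, Reach H ω S ∧ (r ≤ S.card ∨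
      ((∀ x, x ∉ S → m S ω x (ω x) ≤ θ) ∧ δ < ∑ x ∈ Sᶜ, m S ω x (ω x))))) ⊆
      ((powersetCard r (univ : Finset X)).biUnion (fun S =>
        univ.filter (fun ω : ∀ x, V x => Reach H ω S))) ∪
      ((univ : Finset X).powerset.biUnion (fun S =>
        univ.filter (fun ω : ∀ x, V x => Reach H ω S ∧ Tl S ω))) := by
    intro ω hω
    rw [Finset.mem_filter] at hω
    obtain ⟨-, S, hS, h⟩ := hω
    rw [Finset.mem_union, Finset.mem_biUnion, Finset.mem_biUnion]
    rcases h with h | h
    · left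
      obtain ⟨S', h1, h2⟩ := hS.sub r h
      exact ⟨S', Finset.mem_powersetCard.2 ⟨Finset.subset_univ _, h1⟩,
        Finset.mem_filter.2 ⟨Finset.mem_univ _, h2⟩⟩
    · right
      refine ⟨S, Finset.mem_powerset.2 (Finset.subset_univ _),
        Finset.mem_filter.2 ⟨Finset.mem_univ _, hS, ?_⟩⟩
      rw [hTl]
      exact h
  have h1 : ((univ.filter (fun ω : ∀ x, V x => ∃ S, Reach H ω S ∧ (r ≤ S.card ∨
      ((∀ x, x ∉ S → m S ω x (ω x) ≤ θ) ∧ δ < ∑ x ∈ Sᶜ, m S ω x (ω x))))).card : ℝ) ≤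
      (∑ S ∈ powersetCard r (univ : Finset X),
        ((univ.filter (fun ω : ∀ x, V x => Reach H ω S)).card : ℝ)) +
      ∑ S ∈ (univ : Finset X).powerset,
        ((univ.filter (fun ω : ∀ x, V x => Reach H ω S ∧ Tl S ω)).card : ℝ) := by
    have := (Finset.card_le_card hsub).trans ((Finset.card_union_le _ _).trans
      (add_le_add Finset.card_biUnion_le Finset.card_biUnion_le))
    exact_mod_cast this
  refine h1.trans ?_
  rw [add_mul]
  refine add_le_add ?_ ?_
  · calc ∑ S ∈ powersetCard r (univ : Finset X),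
          ((univ.filter (fun ω : ∀ x, V x => Reach H ω S)).card : ℝ)
        ≤ ∑ S ∈ powersetCard r (univ : Finset X),
          (r.factorial * ∏ x ∈ S, ρ x) * Fintype.card (∀ x, V x) := by
          refine Finset.sum_le_sum fun S hS => ?_
          have := hN S
          rwa [(Finset.mem_powersetCard.1 hS).2] at this
      _ = (r.factorial * ∑ S ∈ powersetCard r (univ : Finset X), ∏ x ∈ S, ρ x) *
          Fintype.card (∀ x, V x) := by rw [← Finset.sum_mul, ← Finset.mul_sum]
      _ ≤ σ ^ r * Fintype.card (∀ x, V x) := mul_le_mul_of_nonneg_right (hes r) hc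
  · have h2 : ∀ S ∈ (univ : Finset X).powerset,
        ((univ.filter (fun ω : ∀ x, V x => Reach H ω S ∧ Tl S ω)).card : ℝ) ≤
        τ * (S.card.factorial * (∏ x ∈ S, ρ x) * Fintype.card (∀ x, V x)) := by
      intro S _
      refine (card_indep S (P := fun ω => Reach H ω S) (Q := fun ω => Tl S ω) (τ := τ)
        (fun ω ω' he h => h.congr hH he) fun ω => ?_).trans
        (mul_le_mul_of_nonneg_left (hN S) hτ0)
      have h3 := card_tail S (m := m S ω) (hm S ω) (θ := θ) (δ := δ) hθ (E := E) (hE S ω)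
      rw [← hτ] at h3
      refine le_trans ?_ h3
      have h4 : (univ.filter (fun ω' : ∀ x, V x => Tl S (mixS S ω ω'))) ⊆
          (univ.filter (fun ω' : ∀ x, V x => (∀ x, x ∉ S → m S ω x (ω' x) ≤ θ) ∧
            δ < ∑ x ∈ Sᶜ, m S ω x (ω' x))) := by
        intro ω' hω'
        rw [Finset.mem_filter] at hω' ⊢
        refine ⟨Finset.mem_univ _, ?_⟩
        have h5 := hω'.2
        rw [hTl] at h5
        rw [← hloc S ω (mixS S ω ω') (eqo_mix S ω ω')] at h5
        have h6 : ∀ x, x ∉ S → mixS S ω ω' x = ω' x := by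
          intro x hx
          unfold mixS
          rw [if_neg hx]
        refine ⟨fun x hx => ?_, ?_⟩
        · have := h5.1 x hx
          rwa [h6 x hx] at this
        · rw [Finset.sum_congr rfl fun x hx => by rw [h6 x (Finset.mem_compl.1 hx)]] at h5
          exact h5.2
      exact_mod_cast Finset.card_le_card h4
    refine (Finset.sum_le_sum h2).trans ?_
    rw [← Finset.mul_sum, ← Finset.sum_mul]
    have h3 : ∑ S ∈ (univ : Finset X).powerset, (S.card.factorial : ℝ) * ∏ x ∈ S, ρ x ≤ 2 := by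
      rw [Finset.sum_powerset]
      have h4 : ∀ s ∈ range ((univ : Finset X).card + 1),
          ∑ S ∈ powersetCard s (univ : Finset X), (S.card.factorial : ℝ) * ∏ x ∈ S, ρ x ≤
          (1 / 2) ^ s := by
        intro s _
        have h5 : ∑ S ∈ powersetCard s (univ : Finset X), (S.card.factorial : ℝ) *
            ∏ x ∈ S, ρ x = s.factorial * ∑ S ∈ powersetCard s (univ : Finset X),
              ∏ x ∈ S, ρ x := by
          rw [Finset.mul_sum]
          refine Finset.sum_congr rfl fun S hS => ?_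
          rw [(Finset.mem_powersetCard.1 hS).2]
        rw [h5]
        exact (hes s).trans (pow_le_pow_left₀ (hσ0.trans hσ) hσ2 s)
      exact (Finset.sum_le_sum h4).trans (sum_geometric_two_le _)
    calc τ * ((∑ S ∈ (univ : Finset X).powerset, (S.card.factorial : ℝ) * ∏ x ∈ S, ρ x) *
          Fintype.card (∀ x, V x)) ≤ τ * (2 * Fintype.card (∀ x, V x)) :=
          mul_le_mul_of_nonneg_left (mul_le_mul_of_nonneg_right h3 hc) hτ0
      _ = _ := by ring

end Pool.Agent.W908.MS
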