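import Pool.Agent.W908.M.M9
import Pool.Agent.W908.H.H14
import Pool.Agent.W908.H.HDefs

/-! A language in `UP` and `coUP` that is exponentially hard on average, although quantum
circuits with a promise can be replaced by classical algorithms. -/

set_option autoImplicit false

namespace Pool.Agent.W908.MS

open Pool.Agent.NPC Pool.Agent.H620R2.Gauge Pool.Agent.H622R2 Pool.Agent.H676 Finset H568R2
open Pool.Agent.W908 (IsUP)
open Pool.Agent.W908.PS (cmb gq cmb_congr length_gq Rare pre_local idx_lt_pow qb qb_spec out_congr)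
open Pool.Agent.W908.SP (mem_strsOf' card_strsOf' unif_nn unif_sm)
open Pool.Agent.W908.KS (kp length_kp kp_inj)
open Pool.Agent.W908.HS (big_d ExpHardOnAverage unpair_len2)
open Pool.Agent.W908.QS (QAlg qgen qgen_surj)

/-- the language -/
def LM (W : Oracle) : Set (List Bool) := {z | W (kp z (4 * z.length)) = true}

/-- the verifier, from the answers -/
def vrm (b : Bool) (p : List Bool × List Bool) : List Bool :=
  if p.2 = [true, b] then [true] else []

theorem poly_vrm (b : Bool) : Poly (vrm b) :=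
  Poly.ite (Poly.decide_eq (Poly.snd Poly.id) (NPC.Poly.const _))
    (NPC.Poly.const _) (NPC.Poly.const _)

/-- the questions of the verifier -/
def vqm (y : List Bool) : List (List Bool) :=
  [true :: false :: false :: y, true :: false :: true :: y]

theorem poly_vqm : Poly vqm :=
  Poly.cons (Poly.cons (NPC.Poly.const true) (Poly.cons (NPC.Poly.const false)
    (Poly.cons (NPC.Poly.const false) Poly.id))) (Poly.cons (Poly.cons (NPC.Poly.const true)
    (Poly.cons (NPC.Poly.const false) (Poly.cons (NPC.Poly.const true) Poly.id)))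
    (NPC.Poly.const []))

/-- the key -/
def ky (W : Oracle) (z : List Bool) : List Bool := (val W z).take (4 * z.length)

theorem OM_ans {W : Oracle} (c : Bool) (w z : List Bool) :
    OM W (true :: false :: c :: pairBits w z) =
      (decide (w = ky W z) && (!c || W (kp z (4 * z.length)))) := by
  show gK (val W) (true :: c :: pairBits w z) = _
  rw [gK_cons, unpair_pairBits]
  simp only
  have h1 : (val W z).getD (4 * z.length) false = W (kp z (4 * z.length)) := by
    have hl : 4 * z.length < (val W z).length := by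
      rw [length_val]
      omega
    rw [List.getD_eq_getElem _ _ hl]
    simp only [val, List.getElem_map, List.getElem_range]
  rw [h1]
  congr 1
  rw [decide_eq_decide]
  unfold kz ky
  constructor
  · intro h
    have h1 := congrArg (fun s => (unpair s).1) h
    simpa only [unpair_pairBits] using h1
  · intro h
    rw [h]

theorem vrm_iff {W : Oracle} {b : Bool} {w x : List Bool} :
    vrm b (pairBits w x, (vqm (pairBits w x)).map (OM W)) = [true] ↔
      w = ky W x ∧ W (kp x (4 * x.length)) = b := by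
  unfold vrm vqm
  simp only [List.map_cons, List.map_nil]
  rw [OM_ans, OM_ans]
  constructor
  · intro h
    split_ifs at h with h1
    simp only [List.cons.injEq, and_true, Bool.not_false, Bool.true_or, Bool.and_true,
      decide_eq_true_eq, Bool.not_true, Bool.false_or] at h1
    obtain ⟨h3, h4⟩ := h1
    rw [decide_eq_true h3, Bool.true_and] at h4
    exact ⟨h3, h4⟩
  · rintro ⟨h1, h2⟩
    rw [if_pos]
    rw [decide_eq_true h1, h2]
    simp

theorem isUPm_aux (W : Oracle) (b : Bool) :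
    IsUP (OM W) {x | W (kp x (4 * x.length)) = b} := by
  refine ⟨fun y => vrm b (y, (vqm y).map (OM W)), 4 * Polynomial.X,
    IsFP.tt poly_vqm (poly_vrm b), fun x => ?_, fun x w w' _ _ h h' => ?_⟩
  · constructor
    · intro h
      refine ⟨ky W x, ?_, vrm_iff.2 ⟨rfl, h⟩⟩
      unfold ky
      rw [List.length_take, length_val]
      simp only [Polynomial.eval_mul, Polynomial.eval_ofNat, Polynomial.eval_X]
      omega
    · rintro ⟨w, -, h⟩
      exact (vrm_iff.1 h).2
  · rw [(vrm_iff.1 h).1, (vrm_iff.1 h').1]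

theorem isUP_LM (W : Oracle) : IsUP (OM W) (LM W) := isUPm_aux W true

theorem isUP_LMc (W : Oracle) : IsUP (OM W) (LM W)ᶜ := by
  have h : (LM W)ᶜ = {x | W (kp x (4 * x.length)) = false} := by
    ext x
    simp [LM]
  rw [h]
  exact isUPm_aux W false

theorem OM_local {W W' : Oracle} {T : ℕ} (hW : ∀ q : List Bool, q.length ≤ 9 * T + 3 →
    W q = W' q) {q : List Bool} (hq : q.length ≤ T) : OM W q = OM W' q := by
  refine cmb_congr (fun _ _ => rfl) (gK_congr ?_)
  unfold val
  refine List.map_congr_left fun i hi => hW _ ?_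
  rw [List.mem_range] at hi
  rw [length_kp]
  have h1 := unpair_len2 ((gq q).drop 2)
  have h2 : ((gq q).drop 2).length ≤ (gq q).length := by
    rw [List.length_drop]
    omega
  have h3 := length_gq q
  omega

theorem AGm_local {W W' : Oracle} {M : Alg} {T n : ℕ} {h : List Bool}
    (hT : (qb M).eval (2 * n + 1 + h.length) ≤ T) (hnT : n ≤ T)
    (hW : ∀ q : List Bool, q.length ≤ 9 * T + 3 → W q = W' q) : AGm W M n h = AGm W' M n h := by
  classical
  unfold AGm
  refine Finset.sum_congr rfl fun x _ => ?_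
  have hl : (pairBits (List.ofFn x) h).length = 2 * n + 1 + h.length := by
    rw [A2.length_pairBits, List.length_ofFn]
    omega
  have h1 := (out_congr M (O := OM W) (O' := OM W') (x := pairBits (List.ofFn x) h) fun q hq => by
    refine (OM_local hW ?_).symm
    have := qb_spec M _ _ q hq
    rw [hl] at this
    omega).1
  have h2 : W (kp (List.ofFn x) (4 * n)) = W' (kp (List.ofFn x) (4 * n)) := by
    refine hW _ ?_
    rw [length_kp, List.length_ofFn]
    omega
  rw [h1, h2]

/-- the language is exponentially hard on average for the algorithm, with advice -/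
def GoodXm (M : Alg) (W : Oracle) : Prop :=
  ∃ d : ℕ, 0 < d ∧ ∀ n, d ≤ n → ∀ h : List Bool, h.length ≤ 2 ^ (n / d) →
    (Set.ncard {x : Fin n → Bool | (M.out (OM W) (pairBits (List.ofFn x) h) = some [true] ↔
      List.ofFn x ∈ LM W)} : ℝ) ≤ (1 / 2 + (1 / 2) ^ (n / d)) * 2 ^ n

theorem ncard_eq_AGm {W : Oracle} {M : Alg} {n : ℕ} {h : List Bool} :
    (Set.ncard {x : Fin n → Bool | (M.out (OM W) (pairBits (List.ofFn x) h) = some [true] ↔
      List.ofFn x ∈ LM W)} : ℝ) = AGm W M n h := by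
  classical
  unfold AGm
  rw [Finset.sum_boole, Set.ncard_eq_toFinset_card']
  congr 2
  ext x
  have h2 : List.ofFn x ∈ LM W ↔ W (kp (List.ofFn x) (4 * n)) = true := by
    unfold LM
    rw [Set.mem_ofPred_eq, List.length_ofFn]
  simp [h2]

open Classical in
theorem xm_event {n m K N : ℕ} (M : Alg) (hK : 0 < K) (hn : 1 ≤ n) (hm : 16 * m ≤ n)
    (hp : M.p.eval (2 * n + 1 + 2 ^ m) ≤ 2 ^ (n / 4))
    (hH : 2 * 2 ^ m ≤ 2 ^ (n / 4)) (hQ : K * ((n + 1) * (n + 2)) ≤ 2 ^ (n / 4))
    (hN : 2 ^ (9 * n + 4) ≤ N) :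
    Ex unif (fun a : Fin N → Bool => if ∃ c ≤ 2 ^ m, ∃ h ∈ strsOf c,
      (1 / 2 + (1 / 2) ^ m) * 2 ^ n < AGm (orc N a) M n h then (1 : ℝ) else 0) ≤
      1 / (K * ((n + 1) * (n + 2))) := by
  obtain ⟨H, hHd⟩ : ∃ H, H = 2 ^ m := ⟨_, rfl⟩
  rw [← hHd] at hH hp ⊢
  obtain ⟨δ, hδ⟩ : ∃ δ : ℝ, δ = (1 / 2) ^ m := ⟨_, rfl⟩
  have hδ0 : 0 < δ := by rw [hδ]; positivity
  rw [← hδ]
  have h1 : ∀ a : Fin N → Bool, (if ∃ c ≤ H, ∃ h ∈ strsOf c,
      (1 / 2 + δ) * 2 ^ n < AGm (orc N a) M n h then (1 : ℝ) else 0) ≤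
      ∑ c ∈ range (H + 1), ∑ h ∈ strsOf c,
        if (1 / 2 + δ) * 2 ^ n < AGm (orc N a) M n h then (1 : ℝ) else 0 := by
    intro a
    have hnn : ∀ h : List Bool, (0 : ℝ) ≤ if (1 / 2 + δ) * 2 ^ n < AGm (orc N a) M n h
      then (1 : ℝ) else 0 := fun h => by split_ifs <;> norm_num
    by_cases hE : ∃ c ≤ H, ∃ h ∈ strsOf c, (1 / 2 + δ) * 2 ^ n < AGm (orc N a) M n h
    · rw [if_pos hE]
      obtain ⟨c, hc, h, hh, hj⟩ := hE
      refine le_trans ?_ (Finset.single_le_sum (f := fun c => ∑ h ∈ strsOf c,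
        if (1 / 2 + δ) * 2 ^ n < AGm (orc N a) M n h then (1 : ℝ) else 0)
        (fun c _ => Finset.sum_nonneg fun h _ => hnn h)
        (Finset.mem_range.2 (by omega : c < H + 1)))
      refine le_trans ?_ (Finset.single_le_sum (f := fun h =>
        if (1 / 2 + δ) * 2 ^ n < AGm (orc N a) M n h then (1 : ℝ) else 0)
        (fun h _ => hnn h) hh)
      rw [if_pos hj]
    · rw [if_neg hE]
      exact Finset.sum_nonneg fun c _ => Finset.sum_nonneg fun h _ => hnn h
  refine (Ex_mono unif_nn h1).trans ?_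
  rw [Ex_sum]
  have hn4 : n / 4 + 1 ≤ n - n / 4 := by omega
  obtain ⟨p, hpd⟩ : ∃ p, p = 2 ^ (n / 4) := ⟨_, rfl⟩
  rw [← hpd] at hp
  have h2 : ∀ c ∈ range (H + 1), Ex unif (fun a : Fin N → Bool => ∑ h ∈ strsOf c,
      if (1 / 2 + δ) * 2 ^ n < AGm (orc N a) M n h then (1 : ℝ) else 0) ≤
      2 ^ H * Real.exp (-(2 * δ ^ 2 * 2 ^ n) + p) := by
    intro c hc
    rw [Finset.mem_range, Nat.lt_succ_iff] at hc
    rw [Ex_sum]
    have h3 : ∀ h ∈ strsOf c, Ex unif (fun a : Fin N → Bool =>
        if (1 / 2 + δ) * 2 ^ n < AGm (orc N a) M n h then (1 : ℝ) else 0) ≤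
        Real.exp (-(2 * δ ^ 2 * 2 ^ n) + p) := by
      intro h hh
      rw [mem_strsOf'] at hh
      refine advm_prob M h ?_ hN hδ0
      have h4 : M.p.eval (2 * n + 1 + h.length) ≤ M.p.eval (2 * n + 1 + H) :=
        eval_mono _ (by omega)
      omega
    refine (Finset.sum_le_sum h3).trans ?_
    rw [Finset.sum_const, nsmul_eq_mul, card_strsOf']
    apply mul_le_mul_of_nonneg_right _ (Real.exp_pos _).le
    push_cast
    exact pow_le_pow_right₀ (by norm_num) hc
  refine (Finset.sum_le_sum h2).trans ?_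
  rw [Finset.sum_const, Finset.card_range, nsmul_eq_mul]
  have h3 : ((H + 1 : ℕ) : ℝ) ≤ 2 ^ H := by
    have : H + 1 ≤ 2 ^ H := Nat.lt_two_pow_self
    exact_mod_cast this
  have h4 : (2 : ℝ) ^ H ≤ Real.exp H := by
    have h5 : (2 : ℝ) ≤ Real.exp 1 := by
      have := Real.add_one_le_exp (1 : ℝ)
      linarith
    calc (2 : ℝ) ^ H ≤ Real.exp 1 ^ H := pow_le_pow_left₀ (by norm_num) h5 _
      _ = Real.exp H := by rw [← Real.exp_nat_mul, mul_one]
  have hexp0 := (Real.exp_pos (-(2 * δ ^ 2 * 2 ^ n) + p)).le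
  have hH0 := (Real.exp_pos (H : ℝ)).le
  have h2n : (0 : ℝ) ≤ 2 ^ H := by positivity
  obtain ⟨E, hE⟩ : ∃ E : ℝ, E = 2 ^ (n / 4) := ⟨_, rfl⟩
  have hE1 : 0 < E := by rw [hE]; positivity
  have hpE : (p : ℝ) = E := by
    rw [hE, hpd]
    push_cast
    rfl
  have h5 : 2 * E ≤ δ ^ 2 * 2 ^ n := by
    have e1 : δ ^ 2 * 2 ^ n = 2 ^ (n - 2 * m) := by
      rw [hδ, ← pow_mul, mul_comm m 2, one_div, inv_pow, inv_mul_eq_div,
        div_eq_iff (by positivity), ← pow_add]
      congr 1
      omega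
    rw [e1, hE, ← pow_succ']
    exact pow_le_pow_right₀ (by norm_num) (by omega)
  have h6 : (2 * H : ℝ) ≤ E := by
    rw [hE]
    exact_mod_cast hH
  calc ((H + 1 : ℕ) : ℝ) * (2 ^ H * Real.exp (-(2 * δ ^ 2 * 2 ^ n) + p))
      ≤ Real.exp H * (Real.exp H * Real.exp (-(2 * δ ^ 2 * 2 ^ n) + p)) := by
        apply mul_le_mul (h3.trans h4) _ (by positivity) hH0
        exact mul_le_mul_of_nonneg_right h4 hexp0
    _ = Real.exp (H + (H + (-(2 * δ ^ 2 * 2 ^ n) + p))) := by
        rw [← Real.exp_add, ← Real.exp_add]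
    _ ≤ Real.exp (-E) := by
        apply Real.exp_le_exp.2
        rw [hpE]
        nlinarith
    _ ≤ 1 / (K * ((n + 1) * (n + 2))) := by
        rw [Real.exp_neg, ← one_div]
        apply one_div_le_one_div_of_le
        · have : (0 : ℝ) < K := by exact_mod_cast hK
          positivity
        · have h7 : (K : ℝ) * ((n + 1) * (n + 2)) ≤ E := by
            rw [hE]
            exact_mod_cast hQ
          have := Real.add_one_le_exp E
          linarith

theorem rare_goodXm (M : Alg) : Rare {W | ¬ GoodXm M W} := by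
  classical
  intro K hK
  obtain ⟨Q, hQ⟩ : ∃ Q : Polynomial ℕ, Q = (qb M + 2 * Polynomial.X + 2) + M.p +
      2 * Polynomial.X + Polynomial.C K * ((Polynomial.X + 1) * (Polynomial.X + 2)) := ⟨_, rfl⟩
  obtain ⟨d, hd16, hd⟩ := big_d Q
  have hQe : ∀ y, Q.eval y = ((qb M).eval y + 2 * y + 2) + M.p.eval y + 2 * y +
      K * ((y + 1) * (y + 2)) := by
    intro y
    rw [hQ]
    simp
  obtain ⟨T, hT⟩ : ∃ T : ℕ → ℕ, T = fun n => (qb M).eval (2 * n + 1 + 2 ^ (n / d)) + n :=
    ⟨_, rfl⟩
  have hTe : ∀ n, T n = (qb M).eval (2 * n + 1 + 2 ^ (n / d)) + n := fun n => by rw [hT]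
  refine ⟨fun n => 2 ^ (9 * T n + 3 + 1), fun n a => d ≤ n ∧ ∃ c ≤ 2 ^ (n / d), ∃ h ∈ strsOf c,
      (1 / 2 + (1 / 2) ^ (n / d)) * 2 ^ n < AGm (orc _ a) M n h, fun n => ?_,
      fun W hW => ?_⟩
  · by_cases hn : d ≤ n
    · have h := hd n hn
      rw [hQe] at h
      have hpos : 0 < 2 ^ (n / d) := by positivity
      obtain ⟨y, hy⟩ : ∃ y, y = 2 * n + 1 + 2 ^ (n / d) := ⟨_, rfl⟩
      have hTn := hTe n
      have hyn : n ≤ y := by omega
      have hy2 : 2 ^ (n / d) ≤ y := by omega
      rw [← hy] at h hTn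
      have hK2 : K * ((n + 1) * (n + 2)) ≤ K * ((y + 1) * (y + 2)) := by
        apply Nat.mul_le_mul_left
        apply Nat.mul_le_mul <;> omega
      have h1 := xm_event (N := 2 ^ (9 * T n + 3 + 1)) (n := n) (m := n / d) M hK
        (by omega) (by
          have : n / d ≤ n / 16 := Nat.div_le_div_left hd16 (by norm_num)
          omega) (by rw [← hy]; omega) (by omega) (by omega)
        (Nat.pow_le_pow_right (by norm_num) (by omega))
      simp only [hn, true_and]
      exact h1
    · simp only [hn, false_and, if_false]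
      rw [Ex_const unif_sm]
      positivity
  · by_contra hcon
    push Not at hcon
    refine hW ⟨d, by omega, fun n hn h hh => ?_⟩
    have hTn := hTe n
    have h0 : (qb M).eval (2 * n + 1 + h.length) ≤ (qb M).eval (2 * n + 1 + 2 ^ (n / d)) :=
      eval_mono _ (by omega)
    rw [ncard_eq_AGm]
    have h1 := hcon n hn h.length hh h (mem_strsOf _)
    rw [AGm_local (W' := W) (T := T n) (by omega) (by omega) (fun q hq => pre_local W le_rfl hq)]
      at h1
    exact h1

theorem exists_WM : ∃ W : Oracle, (∀ e, GoodE e W) ∧ ∀ M, GoodXm M W := by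
  obtain ⟨W, hW⟩ := PS.exists_good (Θ := List Bool ⊕ Alg)
    (fun θ => match θ with
      | Sum.inl e => {W | ¬ GoodE e W}
      | Sum.inr M => {W | ¬ GoodXm M W})
    (fun θ => match θ with
      | Sum.inl e => rare_goodE e
      | Sum.inr M => rare_goodXm M)
  refine ⟨W, fun e => ?_, fun M => ?_⟩
  · exact not_not.1 (hW (Sum.inl e))
  · exact not_not.1 (hW (Sum.inr M))

theorem expHardM {W : Oracle} (hW : ∀ M, GoodXm M W) : ExpHardOnAverage (OM W) (LM W) := by
  rintro D ⟨M, hM⟩
  obtain ⟨d, hd, h⟩ := hW M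
  refine ⟨d, hd, fun n hn a ha => ?_⟩
  have h1 := h n hn a ha
  simp only [hM, Option.some.injEq] at h1
  exact h1

/-- A relativized world where every promise problem that quantum computers can solve in polynomial
time can be solved classically in polynomial time, and some language in `UP` and `coUP` is
exponentially hard on average. -/
theorem mainM : ∃ O : Oracle,
    (∀ C : List Bool → List Unit × List Gate, PolyTime (fun x => bits (C x)) →
      ∃ D : List Bool → List Bool, IsFP O D ∧ ∀ x : List Bool,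
        (2 / 3 ≤ accProb O (C x) → D x = [true]) ∧ (accProb O (C x) ≤ 1 / 3 → D x ≠ [true])) ∧
    ∃ L : Set (List Bool), IsUP O L ∧ IsUP O Lᶜ ∧ ExpHardOnAverage O L := by
  obtain ⟨W, h1, h2⟩ := exists_WM
  refine ⟨OM W, fun C hC => ?_, LM W, isUP_LM W, isUP_LMc W, expHardM h2⟩
  obtain ⟨e, he⟩ := qgen_surj (⟨C, hC⟩, ⟨C, hC⟩)
  have h3 := h1 e
  unfold GoodE at h3
  rw [he] at h3
  exact h3

end Pool.Agent.W908.MS
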