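import Pool.Agent.W908.R.R1
import Pool.Agent.W908.K.K10

/-!
# The oracle: hidden keys, and a solver that finds the heavy ones
-/

set_option autoImplicit false

namespace Pool.Agent.W908.MS

open Pool.Agent.NPC Pool.Agent.H620R2.Gauge Pool.Agent.H622R2
open Pool.Agent.W908.PS (cmb gq cmb_congr length_gq tbl)
open Pool.Agent.W908.QS (QAlg qgen qgen_surj qbd qbd_len qbd_ques acc_local cm)
open Pool.Agent.W908.HS (unpair_len2)

/-- the key in the value `l` of `z`, together with `z` -/
def kz (l z : List Bool) : List Bool := pairBits (l.take (4 * z.length)) z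

/-- the data: the question `true :: c :: u` is about the key and about the bit -/
def gK (κ : List Bool → List Bool) : Oracle
  | true :: c :: u => decide (u = kz (κ (unpair u).2) (unpair u).2) &&
      (!c || (κ (unpair u).2).getD (4 * (unpair u).2.length) false)
  | _ => false

theorem gK_cons (κ : List Bool → List Bool) (c : Bool) (u : List Bool) :
    gK κ (true :: c :: u) = (decide (u = kz (κ (unpair u).2) (unpair u).2) &&
      (!c || (κ (unpair u).2).getD (4 * (unpair u).2.length) false)) := rfl

theorem gK_true {κ : List Bool → List Bool} {s : List Bool} (h : gK κ s = true) :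
    ∃ c z, s = true :: c :: kz (κ z) z := by
  match s with
  | [] => simp [gK] at h
  | false :: s => simp [gK] at h
  | [true] => simp [gK] at h
  | true :: c :: u =>
    rw [gK_cons, Bool.and_eq_true, decide_eq_true_eq] at h
    exact ⟨c, (unpair u).2, by rw [← h.1]⟩

theorem unpair_kz (l z : List Bool) : (unpair (kz l z)).2 = z := by
  unfold kz
  rw [unpair_pairBits]

theorem gK_congr {κ κ' : List Bool → List Bool} {s : List Bool}
    (h : κ (unpair (s.drop 2)).2 = κ' (unpair (s.drop 2)).2) : gK κ s = gK κ' s := by
  match s with
  | [] => rfl
  | false :: s => rfl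
  | [true] => rfl
  | true :: c :: u =>
    rw [gK_cons, gK_cons]
    rw [show κ (unpair u).2 = κ' (unpair u).2 from h]

open Classical in
/-- the data for the strings in `Z` -/
noncomputable def gZ (κ : List Bool → List Bool) (Z : Set (List Bool)) : Oracle := fun s =>
  if (unpair (s.drop 2)).2 ∈ Z then gK κ s else false

theorem gZ_congr {κ κ' : List Bool → List Bool} {Z : Set (List Bool)}
    (h : ∀ z ∈ Z, κ z = κ' z) : gZ κ Z = gZ κ' Z := by
  funext s
  unfold gZ
  split_ifs with hs
  · exact gK_congr (h _ hs)
  · rfl

/-- the questions that were asked, with the two answers -/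
abbrev Hist := List (List Bool × (Bool × Bool))

/-- the known data -/
def kw (t : List Bool) (h : Hist) : Oracle := fun s =>
  if 2 ^ (s.length + 1) ≤ t.length then t.getD (idx s) false
  else h.any (fun e => (decide (s = true :: false :: e.1) && e.2.1) ||
    (decide (s = true :: true :: e.1) && e.2.2))

/-- the answers in the history are right -/
def Tru (κ : List Bool → List Bool) (h : Hist) : Prop :=
  ∀ e ∈ h, e.2.1 = gK κ (true :: false :: e.1) ∧ e.2.2 = gK κ (true :: true :: e.1)

/-- the known strings -/
def kn (κ : List Bool → List Bool) (t : List Bool) (h : Hist) : Set (List Bool) :=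
  {z | 2 ^ (9 * z.length + 4) ≤ t.length ∨ ∃ e ∈ h, e.1 = kz (κ z) z}

theorem length_kz {κ : List Bool → List Bool} (hκ : ∀ z, (κ z).length = 4 * z.length + 1)
    (z : List Bool) : (kz (κ z) z).length = 9 * z.length + 1 := by
  unfold kz
  rw [A2.length_pairBits, List.length_take, hκ]
  omega

theorem kw_eq {κ : List Bool → List Bool} (hκ : ∀ z, (κ z).length = 4 * z.length + 1)
    {t : List Bool} {h : Hist} (ht : ∀ s, idx s < t.length → t.getD (idx s) false = gK κ s)
    (hh : Tru κ h) : kw t h = gZ κ (kn κ t h) := by
  funext s
  have hlt : 2 ^ (s.length + 1) ≤ t.length → idx s < t.length := by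
    intro h1
    have := PS.idx_lt_pow (B := s.length) (le_refl s.length)
    omega
  cases hg : gK κ s with
  | true =>
    obtain ⟨c, z, rfl⟩ := gK_true hg
    have hl : (true :: c :: kz (κ z) z).length + 1 = 9 * z.length + 4 := by
      rw [List.length_cons, List.length_cons, length_kz hκ]
    have hz : (unpair ((true :: c :: kz (κ z) z).drop 2)).2 = z := unpair_kz _ _
    unfold kw gZ
    rw [hz, hg, hl]
    by_cases h1 : 2 ^ (9 * z.length + 4) ≤ t.length
    · rw [if_pos h1, if_pos (show z ∈ kn κ t h from Or.inl h1)]
      rw [ht _ (hlt (by rw [hl]; exact h1)), hg]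
    · rw [if_neg h1]
      by_cases h2 : ∃ e ∈ h, e.1 = kz (κ z) z
      · rw [if_pos (show z ∈ kn κ t h from Or.inr h2)]
        obtain ⟨e, he, he2⟩ := h2
        rw [List.any_eq_true]
        refine ⟨e, he, ?_⟩
        have h3 := hh e he
        rw [he2] at h3
        cases c with
        | false => rw [← h3.1] at hg; simp [he2, hg]
        | true => rw [← h3.2] at hg; simp [he2, hg]
      · rw [if_neg (show z ∉ kn κ t h from fun h3 => h3.elim h1 h2)]
        rw [List.any_eq_false]
        intro e he hc
        apply h2
        refine ⟨e, he, ?_⟩
        simp only [Bool.or_eq_true, Bool.and_eq_true, decide_eq_true_eq, List.cons.injEq,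
          true_and] at hc
        rcases hc with hc | hc
        · exact hc.1.2.symm
        · exact hc.1.2.symm
  | false =>
    unfold kw gZ
    rw [hg, ite_self]
    split_ifs with h1
    · rw [ht _ (hlt h1), hg]
    · rw [List.any_eq_false]
      intro e he hc
      have h3 := hh e he
      simp only [Bool.or_eq_true, Bool.and_eq_true, decide_eq_true_eq] at hc
      rcases hc with hc | hc
      · rw [hc.1, ← h3.1, hc.2] at hg
        exact Bool.noConfusion hg
      · rw [hc.1, ← h3.2, hc.2] at hg
        exact Bool.noConfusion hg

/-- one if the question is about `u` -/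
def uq (u q : List Bool) : ℝ := if gq q = true :: false :: u ∨ gq q = true :: true :: u then 1 else 0

theorem uq_nonneg (u q : List Bool) : 0 ≤ uq u q := by
  unfold uq
  split_ifs <;> norm_num

/-- the weight of the questions about `u` -/
noncomputable def wg (F : Oracle) (c : List Unit × List Gate) (t : List Bool) (h : Hist)
    (u : List Bool) : ℝ := cm (cmb F (kw t h)) (uq u) c

/-- `u` is heavy and was not asked -/
def HV (F : Oracle) (B : ℕ) (c : List Unit × List Gate) (t : List Bool) (h : Hist)
    (u : List Bool) : Prop :=
  ¬ 2 ^ (u.length + 3) ≤ t.length ∧ (∀ e ∈ h, e.1 ≠ u) ∧ 1 / (B : ℝ) < wg F c t h u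

open Classical in
/-- some heavy string -/
noncomputable def nx (F : Oracle) (B : ℕ) (c : List Unit × List Gate) (t : List Bool)
    (h : Hist) : List Bool := if H : ∃ u, HV F B c t h u then H.choose else []

theorem nx_spec {F : Oracle} {B : ℕ} {c : List Unit × List Gate} {t : List Bool} {h : Hist}
    (H : ∃ u, HV F B c t h u) : HV F B c t h (nx F B c t h) := by
  unfold nx
  rw [dif_pos H]
  exact H.choose_spec

/-- the history, from the answers -/
noncomputable def tr (F : Oracle) (B : ℕ) (c : List Unit × List Gate) (t : List Bool) :
    List Bool → Hist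
  | b₀ :: b₁ :: a => (nx F B c t (tr F B c t a), (b₀, b₁)) :: tr F B c t a
  | _ => []

/-- the oracle for the short questions -/
def trc (B : ℕ) (F : Oracle) : Oracle := fun q => if q.length < B then F q else false

open Classical in
/-- the answer of the solver -/
noncomputable def slv (F : Oracle) (B : ℕ) (c : List Unit × List Gate) (t a : List Bool) :
    List Bool → Bool
  | [] => decide (1 / 2 ≤ accProb (cmb F (kw t (tr F B c t a))) c)
  | true :: j => decide (j.length < (nx F B c t (tr F B c t a)).length)
  | false :: j => (nx F B c t (tr F B c t a)).getD j.length false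

/-- the parts of a question -/
def pe (z : List Bool) : List Bool := (unpair z).1
def pv (z : List Bool) : List Bool := (unpair (unpair z).2).1
def pi (z : List Bool) : List Bool := (unpair (unpair (unpair z).2).2).1
def pp (z : List Bool) : List Bool := (unpair (unpair (unpair z).2).2).2

/-- The solver. -/
noncomputable def SB (z : List Bool) : Bool :=
  slv (trc (pp z).length (fun q => if _h : q.length < z.length then SB q else false))
    (pp z).length ((qgen (pe z)).1.C (unpair (unpair (pv z)).1).1) (unpair (unpair (pv z)).1).2
    (unpair (pv z)).2 (pi z)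
termination_by z.length

/-- a question to the solver -/
def scode (e v i p : List Bool) : List Bool := pairBits e (pairBits v (pairBits i p))

theorem length_scode (e v i p : List Bool) : p.length ≤ (scode e v i p).length := by
  unfold scode
  simp only [A2.length_pairBits]
  omega

theorem SB_scode (e v i p : List Bool) : SB (scode e v i p) =
    slv (trc p.length SB) p.length ((qgen e).1.C (unpair (unpair v).1).1) (unpair (unpair v).1).2
      (unpair v).2 i := by
  rw [SB]
  have h0 := length_scode e v i p
  have e1 : pe (scode e v i p) = e := by simp only [pe, scode, unpair_pairBits]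
  have e2 : pv (scode e v i p) = v := by simp only [pv, scode, unpair_pairBits]
  have e3 : pi (scode e v i p) = i := by simp only [pi, scode, unpair_pairBits]
  have e4 : pp (scode e v i p) = p := by simp only [pp, scode, unpair_pairBits]
  rw [e1, e2, e3, e4]
  have h1 : trc p.length (fun q => if _h : q.length < (scode e v i p).length then SB q
      else false) = trc p.length SB := by
    funext q
    unfold trc
    by_cases h : q.length < p.length
    · rw [if_pos h, if_pos h]
      beta_reduce
      rw [dif_pos (by omega)]
    · rw [if_neg h, if_neg h]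
  rw [h1]

end Pool.Agent.W908.MS
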