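import Pool.Agent.W908.M.M2
import Pool.Agent.H620R2.GaugeR.R1

/-! The algorithm. -/

set_option autoImplicit false

namespace Pool.Agent.W908.MS

open Pool.Agent.NPC Pool.Agent.H620R2.Gauge Pool.Agent.H622R2
open Pool.Agent.W908.PS (cmb gq cmb_congr length_gq tbl tbq tbq_map poly_tbq N1 poly_unary)
open Pool.Agent.W908.QS (QAlg qgen qgen_surj qbd qbd_len qbd_ques acc_local cm)

/-- the length of the padding -/
def bl (b : Polynomial ℕ) (v : List Bool) : ℕ := b.eval (unpair (unpair v).1).1.length

theorem upoly_bl (b : Polynomial ℕ) : UPoly (bl b) :=
  UPoly.eval (UPoly.length (Poly.fst (poly_unpair.comp (Poly.fst poly_unpair)))) b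

/-- the questions about the heavy string -/
def rq (e : List Bool) (b : Polynomial ℕ) (c : Bool) (v : List Bool) : List (List Bool) :=
  (List.range (bl b v)).map (fun j => true :: true :: false ::
    scode e v (c :: List.replicate (min j (bl b v)) true) (List.replicate (bl b v) true))

theorem poly_rq (e : List Bool) (b : Polynomial ℕ) (c : Bool) : Poly (rq e b c) := by
  have hb := upoly_bl b
  have h2 : UPoly (fun p : List Bool × ℕ => bl b p.1) := hb.comp (Poly.fst Poly.id)
  have h3 : UPoly (fun p : List Bool × ℕ => min p.2 (bl b p.1)) :=
    UPoly.of_le (NPC.Poly.min (Poly.snd Poly.id) h2.toPoly) h2 fun a => min_le_right _ _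
  refine NPC.Poly.map (F := fun v j => true :: true :: false ::
    scode e v (c :: List.replicate (min j (bl b v)) true) (List.replicate (bl b v) true))
    hb.range ?_
  refine Poly.cons (NPC.Poly.const true) (Poly.cons (NPC.Poly.const true)
      (Poly.cons (NPC.Poly.const false) ?_))
  exact poly_pairBits (NPC.Poly.const e) (poly_pairBits (Poly.fst Poly.id)
    (poly_pairBits (Poly.cons (NPC.Poly.const c) (poly_unary h3)) (poly_unary h2)))

/-- the heavy string, from the answers -/
noncomputable def rdu (e : List Bool) (b : Polynomial ℕ) (O : Oracle) (v : List Bool) :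
    List Bool :=
  ((rq e b false v).map O).take (((rq e b true v).map O).filter id).length

theorem isFP_rdu (e : List Bool) (b : Polynomial ℕ) (O : Oracle) :
    IsFP O (fun v => pairBits v (rdu e b O v)) := by
  have h1 : IsFP O (fun v => pairBits v ((rq e b true v).map O)) :=
    IsFP.tt (H := fun p => pairBits p.1 p.2) (poly_rq e b true)
      (poly_pairBits (Poly.fst Poly.id) (Poly.snd Poly.id))
  have hQ : Poly (fun w : List Bool => rq e b false (unpair w).1) :=
    (poly_rq e b false).comp (Poly.fst poly_unpair)
  have hf : Poly (fun p : List Bool × List Bool => (unpair p.1).2.filter id) :=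
    Poly.filter (p := fun _ c => id c) (Poly.snd (poly_unpair.comp (Poly.fst Poly.id)))
      (Poly.snd Poly.id)
  have h2 : IsFP O (fun w => pairBits (unpair w).1
      (((rq e b false (unpair w).1).map O).take ((unpair w).2.filter id).length)) :=
    IsFP.tt (H := fun p => pairBits (unpair p.1).1 (p.2.take ((unpair p.1).2.filter id).length))
      hQ (poly_pairBits (Poly.fst (poly_unpair.comp (Poly.fst Poly.id)))
        (R1.poly_take (Poly.snd Poly.id) (UPoly.length hf)))
  have h3 := h2.comp h1
  simp only [unpair_pairBits] at h3
  exact h3

/-- one step -/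
noncomputable def stp (e : List Bool) (b : Polynomial ℕ) (O : Oracle) (v : List Bool) :
    List Bool := pairBits (unpair v).1 (O (true :: false :: false :: rdu e b O v) ::
      O (true :: false :: true :: rdu e b O v) :: (unpair v).2)

/-- the two questions -/
def dq (w : List Bool) : List (List Bool) :=
  [true :: false :: false :: (unpair w).2, true :: false :: true :: (unpair w).2]

theorem poly_dq : Poly dq := by
  have h := Poly.snd poly_unpair
  exact Poly.cons (Poly.cons (NPC.Poly.const true) (Poly.cons (NPC.Poly.const false)
    (Poly.cons (NPC.Poly.const false) h))) (Poly.cons (Poly.cons (NPC.Poly.const true)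
    (Poly.cons (NPC.Poly.const false) (Poly.cons (NPC.Poly.const true) h))) (NPC.Poly.const []))

theorem isFP_stp (e : List Bool) (b : Polynomial ℕ) (O : Oracle) : IsFP O (stp e b O) := by
  have h0 : Poly (fun p : List Bool × List Bool => unpair (unpair p.1).1) :=
    poly_unpair.comp (Poly.fst (poly_unpair.comp (Poly.fst Poly.id)))
  have h2 : IsFP O (fun w => pairBits (unpair (unpair w).1).1
      ((dq w).map O ++ (unpair (unpair w).1).2)) :=
    IsFP.tt (H := fun p => pairBits (unpair (unpair p.1).1).1
      (p.2 ++ (unpair (unpair p.1).1).2)) poly_dq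
      (poly_pairBits (Poly.fst h0) (Poly.append (Poly.snd Poly.id) (Poly.snd h0)))
  have h3 := h2.comp (isFP_rdu e b O)
  simp only [unpair_pairBits, dq, List.map_cons, List.map_nil, List.cons_append,
    List.nil_append] at h3
  exact h3

/-- the answers after `i` steps -/
noncomputable def an (e : List Bool) (b : Polynomial ℕ) (O : Oracle) (y : List Bool) :
    ℕ → List Bool
  | 0 => []
  | i + 1 => O (true :: false :: false :: rdu e b O (pairBits y (an e b O y i))) ::
      O (true :: false :: true :: rdu e b O (pairBits y (an e b O y i))) :: an e b O y i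

theorem length_an (e : List Bool) (b : Polynomial ℕ) (O : Oracle) (y : List Bool) (i : ℕ) :
    (an e b O y i).length = 2 * i := by
  induction i with
  | zero => rfl
  | succ i ih =>
    rw [an, List.length_cons, List.length_cons, ih]
    omega

theorem iter_eq (e : List Bool) (b : Polynomial ℕ) (O : Oracle) (y : List Bool) (i : ℕ) :
    (stp e b O)^[i] (pairBits y []) = pairBits y (an e b O y i) := by
  induction i with
  | zero => rfl
  | succ i ih =>
    rw [Function.iterate_succ_apply', ih, stp, unpair_pairBits, an]

theorem isFP_loop (e : List Bool) (b T : Polynomial ℕ) (O : Oracle) :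
    IsFP O (fun y => pairBits y (an e b O y (T.eval y.length))) := by
  have hg : Poly (fun y : List Bool => pairBits y []) := poly_pairBits Poly.id (NPC.Poly.const [])
  have h := (isFP_stp e b O).loop hg T (2 * Polynomial.X + 1 + 2 * T) (fun y i hi => by
    rw [iter_eq, A2.length_pairBits, length_an]
    simp only [Polynomial.eval_add, Polynomial.eval_mul, Polynomial.eval_X,
      Polynomial.eval_ofNat, Polynomial.eval_one]
    omega)
  simp only [iter_eq] at h
  exact h

/-- the last question -/
def lq (e : List Bool) (b : Polynomial ℕ) (v : List Bool) : List (List Bool) :=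
  [true :: true :: false :: scode e v [] (List.replicate (bl b v) true)]

theorem poly_lq (e : List Bool) (b : Polynomial ℕ) : Poly (lq e b) := by
  refine Poly.cons (Poly.cons (NPC.Poly.const true) (Poly.cons (NPC.Poly.const true)
    (Poly.cons (NPC.Poly.const false) ?_))) (NPC.Poly.const [])
  exact poly_pairBits (NPC.Poly.const e) (poly_pairBits Poly.id
    (poly_pairBits (NPC.Poly.const []) (poly_unary (upoly_bl b))))

/-- the algorithm -/
noncomputable def dec (e : List Bool) (P b T : Polynomial ℕ) (κ : List Bool → List Bool)
    (x : List Bool) : List Bool :=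
  (lq e b (pairBits (pairBits x (tbl P (gK κ) x.length)) (an e b (cmb SB (gK κ))
    (pairBits x (tbl P (gK κ) x.length))
    (T.eval (pairBits x (tbl P (gK κ) x.length)).length)))).map (cmb SB (gK κ))

theorem isFP_dec (e : List Bool) (P b T : Polynomial ℕ) (κ : List Bool → List Bool) :
    IsFP (cmb SB (gK κ)) (dec e P b T κ) := by
  have h0 : IsFP (cmb SB (gK κ)) (fun x : List Bool => pairBits x []) :=
    IsFP.of_poly (poly_pairBits Poly.id (NPC.Poly.const []))
  have h1 : IsFP (cmb SB (gK κ)) (fun v => pairBits (unpair v).1
      ((tbq P v).map (cmb SB (gK κ)))) :=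
    IsFP.tt (H := fun p => pairBits (unpair p.1).1 p.2) (poly_tbq P)
      (poly_pairBits (Poly.fst (poly_unpair.comp (Poly.fst Poly.id))) (Poly.snd Poly.id))
  have h2 := h1.comp h0
  simp only [tbq_map, unpair_pairBits] at h2
  have h3 : IsFP (cmb SB (gK κ)) (fun v => (lq e b v).map (cmb SB (gK κ))) :=
    IsFP.tt (H := fun p => p.2) (poly_lq e b) (Poly.snd Poly.id)
  exact h3.comp ((isFP_loop e b T (cmb SB (gK κ))).comp h2)

theorem filter_lt {B m : ℕ} (h : m ≤ B) :
    ((List.range B).filter (fun j => decide (j < m))).length = m := by
  have e : (List.range B).filter (fun j => decide (j < m)) = List.range m := by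
    obtain ⟨d, rfl⟩ := Nat.exists_eq_add_of_le h
    rw [List.range_add, List.filter_append]
    have e1 : (List.range m).filter (fun j => decide (j < m)) = List.range m := by
      rw [List.filter_eq_self]
      intro j hj
      rw [List.mem_range] at hj
      exact decide_eq_true hj
    have e2 : ((List.range d).map (m + ·)).filter (fun j => decide (j < m)) = [] := by
      rw [List.filter_eq_nil_iff]
      intro j hj
      rw [List.mem_map] at hj
      obtain ⟨i, -, rfl⟩ := hj
      simp
    rw [e1, e2, List.append_nil]
  rw [e, List.length_range]

/-- the heavy string is read correctly -/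
theorem rdu_val {e : List Bool} {b : Polynomial ℕ} {G : Oracle} {x t a : List Bool} {B : ℕ}
    {u : List Bool} (hB : b.eval x.length = B)
    (hu : nx (trc B SB) B ((qgen e).1.C x) t (tr (trc B SB) B ((qgen e).1.C x) t a) = u)
    (hl : u.length ≤ B) : rdu e b (cmb SB G) (pairBits (pairBits x t) a) = u := by
  have hbl : bl b (pairBits (pairBits x t) a) = B := by
    unfold bl
    rw [unpair_pairBits, unpair_pairBits]
    exact hB
  have h1 : (rq e b true (pairBits (pairBits x t) a)).map (cmb SB G) =
      (List.range B).map (fun j => decide (j < u.length)) := by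
    unfold rq
    rw [hbl, List.map_map]
    refine List.map_congr_left fun j hj => ?_
    rw [List.mem_range] at hj
    show SB (scode _ _ _ _) = _
    rw [SB_scode, unpair_pairBits, unpair_pairBits, List.length_replicate]
    unfold slv
    rw [hu]
    show decide ((List.replicate (min j B) true).length < u.length) = _
    rw [List.length_replicate, min_eq_left hj.le]
  have h2 : (rq e b false (pairBits (pairBits x t) a)).map (cmb SB G) =
      (List.range B).map (fun j => u.getD j false) := by
    unfold rq
    rw [hbl, List.map_map]
    refine List.map_congr_left fun j hj => ?_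
    rw [List.mem_range] at hj
    show SB (scode _ _ _ _) = _
    rw [SB_scode, unpair_pairBits, unpair_pairBits, List.length_replicate]
    unfold slv
    rw [hu]
    show u.getD (List.replicate (min j B) true).length false = _
    rw [List.length_replicate, min_eq_left hj.le]
  unfold rdu
  rw [h1, h2, List.filter_map, List.length_map]
  have e3 : (List.filter (id ∘ fun j => decide (j < u.length)) (List.range B)).length =
      u.length := filter_lt hl
  rw [e3]
  refine List.ext_getElem ?_ fun i h3 h4 => ?_
  · rw [List.length_take, List.length_map, List.length_range, min_eq_left hl]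
  · rw [List.getElem_take, List.getElem_map, List.getElem_range]
    rw [List.getD_eq_getElem?_getD, List.getElem?_eq_getElem h4]
    rfl

end Pool.Agent.W908.MS
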