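import Pool.Agent.W908.M.M3

/-! The run of the algorithm. -/

set_option autoImplicit false

namespace Pool.Agent.W908.MS

open Pool.Agent.NPC Pool.Agent.H620R2.Gauge Pool.Agent.H622R2 Finset
open Pool.Agent.W908.PS (cmb gq cmb_congr length_gq tbl)
open Pool.Agent.W908.QS (QAlg qgen qgen_surj qbd qbd_len qbd_ques acc_local cm cm_le cm_nonneg
  mass_sum)

/-- the real history -/
noncomputable def hsq (κ : List Bool → List Bool) (F : Oracle) (B : ℕ)
    (c : List Unit × List Gate) (t : List Bool) : ℕ → Hist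
  | 0 => []
  | k + 1 => (nx F B c t (hsq κ F B c t k),
      (gK κ (true :: false :: nx F B c t (hsq κ F B c t k)),
        gK κ (true :: true :: nx F B c t (hsq κ F B c t k)))) :: hsq κ F B c t k

variable {κ : List Bool → List Bool} {F : Oracle} {B L : ℕ} {c : List Unit × List Gate}
  {t : List Bool}

theorem tru_hsq (k : ℕ) : Tru κ (hsq κ F B c t k) := by
  induction k with
  | zero => intro e he; simp [hsq] at he
  | succ k ih =>
    intro e he
    rw [hsq, List.mem_cons] at he
    rcases he with rfl | he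
    · exact ⟨rfl, rfl⟩
    · exact ih e he

theorem heavy_len {h : Hist} {u : List Bool}
    (hc2 : ∀ q k, Sum.inr (true, q, k) ∈ c.2 → q.length ≤ L) (hu : 0 < wg F c t h u) :
    u.length + 2 ≤ L := by
  by_contra hlt
  have h1 : wg F c t h u ≤ c.2.length * 0 := cm_le le_rfl _ _ fun q k hq y hy => by
    unfold uq
    rw [if_neg]
    have h2 := length_gq y
    have h3 := hc2 q k hq
    rintro (h4 | h4) <;>
    · have := congrArg List.length h4
      rw [List.length_cons, List.length_cons] at this
      omega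
  linarith

theorem hv_pos {h : Hist} {u : List Bool} (H : HV F B c t h u) : 0 < wg F c t h u :=
  lt_of_le_of_lt (by positivity) H.2.2

theorem nx_len {h : Hist} (hc2 : ∀ q k, Sum.inr (true, q, k) ∈ c.2 → q.length ≤ L) :
    (nx F B c t h).length ≤ L := by
  by_cases H : ∃ u, HV F B c t h u
  · have := heavy_len hc2 (hv_pos (nx_spec H))
    omega
  · unfold nx
    rw [dif_neg H]
    simp

/-- the history of the algorithm -/
theorem an_hsq {e x : List Bool} {b : Polynomial ℕ}
    (hc2 : ∀ q k, Sum.inr (true, q, k) ∈ ((qgen e).1.C x).2 → q.length ≤ L)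
    (hB : b.eval x.length = B) (hL : L ≤ B) (k : ℕ) :
    tr (trc B SB) B ((qgen e).1.C x) t (an e b (cmb SB (gK κ)) (pairBits x t) k) =
      hsq κ (trc B SB) B ((qgen e).1.C x) t k := by
  induction k with
  | zero => rfl
  | succ k ih =>
    have h1 := rdu_val (e := e) (b := b) (G := gK κ) (x := x) (t := t) hB rfl
      ((nx_len (F := trc B SB) (B := B) (t := t)
        (h := tr (trc B SB) B ((qgen e).1.C x) t
          (an e b (cmb SB (gK κ)) (pairBits x t) k)) hc2).trans hL)
    rw [an, tr, h1, ih, hsq]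
    rfl

theorem sum_uq (U : Finset (List Bool)) (q : List Bool) : ∑ u ∈ U, uq u q ≤ 1 := by
  have h1 : ∀ u ∈ U, uq u q ≤ if u = (gq q).drop 2 then (1 : ℝ) else 0 := by
    intro u _
    unfold uq
    by_cases h : gq q = true :: false :: u ∨ gq q = true :: true :: u
    · rw [if_pos h, if_pos]
      rcases h with h | h <;> rw [h] <;> rfl
    · rw [if_neg h]
      split_ifs <;> norm_num
  refine (Finset.sum_le_sum h1).trans ?_
  rw [Finset.sum_ite_eq']
  split_ifs <;> norm_num

theorem sum_cm (A : Oracle) (c : List Unit × List Gate) (U : Finset (List Bool)) :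
    ∑ u ∈ U, cm A (uq u) c ≤ c.2.length := by
  have h1 : ∑ u ∈ U, cm A (uq u) c = cm A (fun q => ∑ u ∈ U, uq u q) c := by
    unfold cm
    rw [mass_sum]
  rw [h1]
  have h2 := cm_le (w := fun q => ∑ u ∈ U, uq u q) (δ := 1) (by norm_num) A c
    (fun q k _ y _ => sum_uq U y)
  rwa [mul_one] at h2

theorem kz_ne (l z : List Bool) : kz l z ≠ [] := by
  intro h
  have := congrArg List.length h
  unfold kz at this
  rw [A2.length_pairBits, List.length_nil] at this
  omega

/-- only long strings are found, and no too long ones -/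
theorem found_long (hκ : ∀ z, (κ z).length = 4 * z.length + 1)
    (hc2 : ∀ q k, Sum.inr (true, q, k) ∈ c.2 → q.length ≤ L) {z : List Bool} (k : ℕ)
    (h : ∃ e ∈ hsq κ F B c t k, e.1 = kz (κ z) z) :
    z.length ≤ L ∧ ¬ 2 ^ (9 * z.length + 4) ≤ t.length := by
  induction k with
  | zero =>
    obtain ⟨e, he, -⟩ := h
    simp [hsq] at he
  | succ k ih =>
    obtain ⟨e, he, he2⟩ := h
    rw [hsq, List.mem_cons] at he
    rcases he with rfl | he
    · by_cases H : ∃ u, HV F B c t (hsq κ F B c t k) u
      · have h1 := nx_spec H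
        simp only at he2
        rw [he2] at h1
        have h2 := heavy_len hc2 (hv_pos h1)
        have h3 := h1.1
        rw [length_kz hκ] at h2 h3
        exact ⟨by omega, h3⟩
      · simp only at he2
        unfold nx at he2
        rw [dif_neg H] at he2
        exact absurd he2.symm (kz_ne _ _)
    · exact ih ⟨e, he, he2⟩

/-- the world -/
theorem kw_hsq (hκ : ∀ z, (κ z).length = 4 * z.length + 1)
    (ht : ∀ s, idx s < t.length → t.getD (idx s) false = gK κ s) (k : ℕ) :
    kw t (hsq κ F B c t k) = gZ κ (kn κ t (hsq κ F B c t k)) := kw_eq hκ ht (tru_hsq k)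

theorem kn_mono (k d : ℕ) : kn κ t (hsq κ F B c t k) ⊆ kn κ t (hsq κ F B c t (k + d)) := by
  induction d with
  | zero => exact subset_rfl
  | succ d ih =>
    refine ih.trans ?_
    rintro z (hz | ⟨e, he, he2⟩)
    · exact Or.inl hz
    · exact Or.inr ⟨e, List.mem_cons_of_mem _ he, he2⟩

/-- once there is no heavy string there is none later -/
theorem stop_step (hκ : ∀ z, (κ z).length = 4 * z.length + 1)
    (ht : ∀ s, idx s < t.length → t.getD (idx s) false = gK κ s) {k : ℕ}
    (H : ¬ ∃ u, HV F B c t (hsq κ F B c t k) u) :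
    ¬ ∃ u, HV F B c t (hsq κ F B c t (k + 1)) u := by
  rintro ⟨u, h1, h2, h3⟩
  apply H
  refine ⟨u, h1, fun e he => h2 e (List.mem_cons_of_mem _ he), ?_⟩
  have h4 : kn κ t (hsq κ F B c t (k + 1)) = kn κ t (hsq κ F B c t k) := by
    refine subset_antisymm ?_ (kn_mono k 1)
    rintro z (hz | ⟨e, he, he2⟩)
    · exact Or.inl hz
    · rw [hsq, List.mem_cons] at he
      rcases he with rfl | he
      · simp only at he2
        unfold nx at he2
        rw [dif_neg H] at he2
        exact absurd he2.symm (kz_ne _ _)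
      · exact Or.inr ⟨e, he, he2⟩
  unfold wg at h3 ⊢
  rw [kw_hsq hκ ht, h4, ← kw_hsq hκ ht] at h3
  exact h3

theorem stop_later (hκ : ∀ z, (κ z).length = 4 * z.length + 1)
    (ht : ∀ s, idx s < t.length → t.getD (idx s) false = gK κ s) {k : ℕ}
    (H : ¬ ∃ u, HV F B c t (hsq κ F B c t k) u) (d : ℕ) :
    ¬ ∃ u, HV F B c t (hsq κ F B c t (k + d)) u := by
  induction d with
  | zero => exact H
  | succ d ih => exact stop_step hκ ht ih

/-- earlier strings were asked -/
theorem mem_hsq {k l : ℕ} (h : k < l) : ∃ e ∈ hsq κ F B c t l,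
    e.1 = nx F B c t (hsq κ F B c t k) := by
  induction l with
  | zero => omega
  | succ l ih =>
    by_cases hk : k = l
    · subst hk
      exact ⟨_, List.mem_cons_self, rfl⟩
    · obtain ⟨e, he, he2⟩ := ih (by omega)
      exact ⟨e, List.mem_cons_of_mem _ he, he2⟩

/-- the number of rounds -/
theorem stop (hκ : ∀ z, (κ z).length = 4 * z.length + 1)
    (ht : ∀ s, idx s < t.length → t.getD (idx s) false = gK κ s) {D : Type} [DecidableEq D]
    (S : ℕ → Finset D) (hS : ∀ k l, k ≤ l → S k ⊆ S l)
    (hS2 : ∀ k l, S k = S l → kn κ t (hsq κ F B c t k) = kn κ t (hsq κ F B c t l))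
    (hB : c.2.length ≤ B) (hB0 : 0 < B) {r R : ℕ} (hr : ∀ k, (S k).card < r)
    (hR : B * B * r < R) : ¬ ∃ u, HV F B c t (hsq κ F B c t R) u := by
  intro HR
  have H : ∀ k ≤ R, ∃ u, HV F B c t (hsq κ F B c t k) u := by
    intro k hk
    by_contra h
    obtain ⟨d, rfl⟩ := Nat.exists_eq_add_of_le hk
    exact stop_later hκ ht h d HR
  have h1 : (range R).card ≤ (B * B) * (range r).card := by
    refine Finset.card_le_mul_card_image_of_maps_to (f := fun k => (S k).card)
      (fun k _ => Finset.mem_range.2 (hr k)) (B * B) fun j _ => ?_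
    obtain ⟨I, hI⟩ : ∃ I, I = {k ∈ range R | (S k).card = j} := ⟨_, rfl⟩
    rw [← hI]
    rcases I.eq_empty_or_nonempty with hI0 | ⟨k₀, hk₀⟩
    · rw [hI0]
      simp
    have hIm : ∀ k, k ∈ I ↔ k < R ∧ (S k).card = j := by
      intro k
      rw [hI, Finset.mem_filter, Finset.mem_range]
    have hSS : ∀ k ∈ I, S k = S k₀ := by
      intro k hk
      have h2 := ((hIm k).1 hk).2
      have h3 := ((hIm k₀).1 hk₀).2
      rcases le_total k k₀ with h | h
      · exact Finset.eq_of_subset_of_card_le (hS _ _ h) (by omega)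
      · exact (Finset.eq_of_subset_of_card_le (hS _ _ h) (by omega)).symm
    have hinj : Set.InjOn (fun k => nx F B c t (hsq κ F B c t k)) (I : Set ℕ) := by
      have key : ∀ k ∈ I, ∀ l ∈ I, k < l → nx F B c t (hsq κ F B c t k) ≠
          nx F B c t (hsq κ F B c t l) := by
        intro k _ l hl hkl he
        have h2 := (nx_spec (H l ((hIm l).1 hl).1.le)).2.1
        obtain ⟨e, he1, he2⟩ := mem_hsq (κ := κ) (F := F) (B := B) (c := c) (t := t) hkl
        exact h2 e he1 (he2.trans he)
      intro k hk l hl he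
      rcases lt_trichotomy k l with h | h | h
      · exact absurd he (key k hk l hl h)
      · exact h
      · exact absurd he.symm (key l hl k hk h)
    obtain ⟨U, hU⟩ : ∃ U, U = I.image (fun k => nx F B c t (hsq κ F B c t k)) := ⟨_, rfl⟩
    have hUc : U.card = I.card := by
      rw [hU]
      exact Finset.card_image_of_injOn hinj
    have h4 : ∀ u ∈ U, 1 / (B : ℝ) ≤ cm (cmb F (kw t (hsq κ F B c t k₀))) (uq u) c := by
      intro u hu
      rw [hU, Finset.mem_image] at hu
      obtain ⟨k, hk, rfl⟩ := hu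
      have h5 := (nx_spec (H k ((hIm k).1 hk).1.le)).2.2
      have h6 := hS2 _ _ (hSS k hk)
      unfold wg at h5
      rw [kw_hsq hκ ht, h6, ← kw_hsq hκ ht] at h5
      exact h5.le
    have h5 := (Finset.sum_le_sum h4).trans (sum_cm _ c U)
    rw [Finset.sum_const, nsmul_eq_mul, hUc] at h5
    have hB1 : (0 : ℝ) < B := by exact_mod_cast hB0
    rw [mul_one_div, div_le_iff₀ hB1] at h5
    have h6 : (I.card : ℝ) ≤ B * B := by
      refine h5.trans (mul_le_mul_of_nonneg_right ?_ hB1.le)
      exact_mod_cast hB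
    exact_mod_cast h6
  rw [Finset.card_range, Finset.card_range] at h1
  omega

end Pool.Agent.W908.MS
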