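import Pool.Agent.W908.M.M4
import Pool.Agent.W908.M.M1

/-! The found strings can be reached step by step, and the last world is good. -/

set_option autoImplicit false

namespace Pool.Agent.W908.MS

open Pool.Agent.NPC Pool.Agent.H620R2.Gauge Pool.Agent.H622R2 Pool.Agent.H676 Finset
open Pool.Agent.W908.PS (cmb gq cmb_congr length_gq tbl)
open Pool.Agent.W908.SP (mem_strsOf')
open Pool.Agent.W908.QS (QAlg qgen qgen_surj qbd qbd_len qbd_ques acc_local cm cm_le cm_nonneg
  mass_sum acc_close)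

/-- the long strings -/
def XS (N₀ L : ℕ) : Finset (List Bool) :=
  ((range (L + 1)).biUnion strsOf).filter (fun z => ¬ 2 ^ (9 * z.length + 4) ≤ N₀)

theorem mem_XS {N₀ L : ℕ} {z : List Bool} :
    z ∈ XS N₀ L ↔ z.length ≤ L ∧ ¬ 2 ^ (9 * z.length + 4) ≤ N₀ := by
  unfold XS
  rw [Finset.mem_filter, Finset.mem_biUnion]
  constructor
  · rintro ⟨⟨l, hl, hz⟩, h⟩
    rw [mem_strsOf'] at hz
    rw [Finset.mem_range] at hl
    exact ⟨by omega, h⟩
  · rintro ⟨h1, h2⟩
    exact ⟨⟨z.length, Finset.mem_range.2 (by omega), mem_strsOf'.2 rfl⟩, h2⟩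

/-- the long strings, as a type -/
abbrev XT (N₀ L : ℕ) : Type := {z : List Bool // z ∈ XS N₀ L}

/-- the values -/
abbrev VT {N₀ L : ℕ} (x : XT N₀ L) : Type := Fin (4 * x.1.length + 1) → Bool

/-- the values `ω`, and `κ₀` for the other strings -/
def kap {N₀ L : ℕ} (κ₀ : List Bool → List Bool) (ω : ∀ x : XT N₀ L, VT x) (z : List Bool) :
    List Bool := if h : z ∈ XS N₀ L then List.ofFn (ω ⟨z, h⟩) else κ₀ z

theorem kap_mem {N₀ L : ℕ} (κ₀ : List Bool → List Bool) (ω : ∀ x : XT N₀ L, VT x) (x : XT N₀ L) :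
    kap κ₀ ω x.1 = List.ofFn (ω x) := by
  unfold kap
  rw [dif_pos x.2]

theorem kap_len {N₀ L : ℕ} {κ₀ : List Bool → List Bool}
    (h₀ : ∀ z, (κ₀ z).length = 4 * z.length + 1) (ω : ∀ x : XT N₀ L, VT x) (z : List Bool) :
    (kap κ₀ ω z).length = 4 * z.length + 1 := by
  unfold kap
  split_ifs with h
  · rw [List.length_ofFn]
  · exact h₀ z

/-- the short strings and the strings in `S` -/
def sS {N₀ L : ℕ} (S : Finset (XT N₀ L)) : Set (List Bool) :=
  {z | 2 ^ (9 * z.length + 4) ≤ N₀ ∨ ∃ h : z ∈ XS N₀ L, (⟨z, h⟩ : XT N₀ L) ∈ S}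

/-- the weight of the key `v` -/
noncomputable def mm {N₀ L : ℕ} (F : Oracle) (c : List Unit × List Gate)
    (κ₀ : List Bool → List Bool) (S : Finset (XT N₀ L)) (ω : ∀ x : XT N₀ L, VT x)
    (x : XT N₀ L) (v : VT x) : ℝ :=
  cm (cmb F (gZ (kap κ₀ ω) (sS S))) (uq (kz (List.ofFn v) x.1)) c

theorem mm_local {N₀ L : ℕ} (F : Oracle) (c : List Unit × List Gate)
    (κ₀ : List Bool → List Bool) (S : Finset (XT N₀ L)) (ω ω' : ∀ x : XT N₀ L, VT x)
    (h : Eqo S ω ω') : mm F c κ₀ S ω = mm F c κ₀ S ω' := by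
  funext x v
  unfold mm
  rw [gZ_congr (κ := kap κ₀ ω) (κ' := kap κ₀ ω') (Z := sS S)]
  intro z hz
  by_cases hx : z ∈ XS N₀ L
  · have h1 : (⟨z, hx⟩ : XT N₀ L) ∈ S := by
      rcases hz with hz | ⟨_, hz⟩
      · exact absurd hz (mem_XS.1 hx).2
      · exact hz
    unfold kap
    rw [dif_pos hx, dif_pos hx, h _ h1]
  · unfold kap
    rw [dif_neg hx, dif_neg hx]

theorem mm_nonneg {N₀ L : ℕ} (F : Oracle) (c : List Unit × List Gate)
    (κ₀ : List Bool → List Bool) (S : Finset (XT N₀ L)) (ω : ∀ x : XT N₀ L, VT x)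
    (x : XT N₀ L) (v : VT x) : 0 ≤ mm F c κ₀ S ω x v := cm_nonneg (uq_nonneg _) _ _

section

variable {N₀ L B : ℕ} {κ₀ : List Bool → List Bool} {ω : ∀ x : XT N₀ L, VT x} {F : Oracle}
  {c : List Unit × List Gate} {t : List Bool}

open Classical in
/-- the found strings -/
noncomputable def Sk (κ₀ : List Bool → List Bool) (ω : ∀ x : XT N₀ L, VT x) (F : Oracle)
    (B : ℕ) (c : List Unit × List Gate) (t : List Bool) (k : ℕ) : Finset (XT N₀ L) :=
  univ.filter (fun x => ∃ e ∈ hsq (kap κ₀ ω) F B c t k, e.1 = kz (kap κ₀ ω x.1) x.1)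

theorem mem_Sk {k : ℕ} {x : XT N₀ L} : x ∈ Sk κ₀ ω F B c t k ↔
    ∃ e ∈ hsq (kap κ₀ ω) F B c t k, e.1 = kz (kap κ₀ ω x.1) x.1 := by
  unfold Sk
  rw [Finset.mem_filter]
  exact ⟨fun h => h.2, fun h => ⟨Finset.mem_univ _, h⟩⟩

theorem Sk_mono {k l : ℕ} (h : k ≤ l) : Sk κ₀ ω F B c t k ⊆ Sk κ₀ ω F B c t l := by
  obtain ⟨d, rfl⟩ := Nat.exists_eq_add_of_le h
  induction d with
  | zero => exact subset_rfl
  | succ d ih =>
    refine (ih (by omega)).trans ?_
    intro x hx
    rw [mem_Sk] at hx ⊢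
    obtain ⟨e, he, he2⟩ := hx
    exact ⟨e, List.mem_cons_of_mem _ he, he2⟩

theorem kn_Sk (h₀ : ∀ z, (κ₀ z).length = 4 * z.length + 1) (hN : t.length = N₀)
    (hc2 : ∀ q k, Sum.inr (true, q, k) ∈ c.2 → q.length ≤ L) (k : ℕ) :
    kn (kap κ₀ ω) t (hsq (kap κ₀ ω) F B c t k) = sS (Sk κ₀ ω F B c t k) := by
  ext z
  constructor
  · rintro (hz | hz)
    · left
      rw [← hN]
      exact hz
    · have h1 := found_long (kap_len h₀ ω) hc2 k hz
      rw [hN] at h1
      have hx : z ∈ XS N₀ L := mem_XS.2 h1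
      exact Or.inr ⟨hx, mem_Sk.2 hz⟩
  · rintro (hz | ⟨hx, hz⟩)
    · left
      rw [hN]
      exact hz
    · exact Or.inr (mem_Sk.1 hz)

theorem reach_Sk (h₀ : ∀ z, (κ₀ z).length = 4 * z.length + 1) (hN : t.length = N₀)
    (ht : ∀ s, idx s < t.length → t.getD (idx s) false = gK (kap κ₀ ω) s)
    (hc2 : ∀ q k, Sum.inr (true, q, k) ∈ c.2 → q.length ≤ L) (k : ℕ) :
    Reach (fun S ω x v => 1 / (B : ℝ) < mm F c κ₀ S ω x v) ω (Sk κ₀ ω F B c t k) := by
  induction k with
  | zero =>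
    have : Sk κ₀ ω F B c t 0 = ∅ := by
      refine Finset.eq_empty_of_forall_notMem fun x hx => ?_
      rw [mem_Sk] at hx
      obtain ⟨e, he, -⟩ := hx
      simp [hsq] at he
    rw [this]
    exact Reach.nil
  | succ k ih =>
    by_cases hz : ∃ z, nx F B c t (hsq (kap κ₀ ω) F B c t k) = kz (kap κ₀ ω z) z
    · obtain ⟨z, hz⟩ := hz
      have H : ∃ u, HV F B c t (hsq (kap κ₀ ω) F B c t k) u := by
        by_contra H
        unfold nx at hz
        rw [dif_neg H] at hz
        exact kz_ne _ _ hz.symm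
      have h1 := nx_spec H
      rw [hz] at h1
      have hf := found_long (F := F) (B := B) (c := c) (t := t) (kap_len h₀ ω) hc2 (k + 1)
        (z := z) ⟨_, List.mem_cons_self, hz⟩
      rw [hN] at hf
      have hx : z ∈ XS N₀ L := mem_XS.2 hf
      have h2 : Sk κ₀ ω F B c t (k + 1) = insert ⟨z, hx⟩ (Sk κ₀ ω F B c t k) := by
        ext x
        rw [Finset.mem_insert, mem_Sk, mem_Sk]
        constructor
        · rintro ⟨e, he, he2⟩
          rw [hsq, List.mem_cons] at he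
          rcases he with rfl | he
          · left
            simp only at he2
            rw [hz] at he2
            have := congrArg (fun u => (unpair u).2) he2
            simp only [unpair_kz] at this
            exact Subtype.ext this.symm
          · exact Or.inr ⟨e, he, he2⟩
        · rintro (rfl | ⟨e, he, he2⟩)
          · exact ⟨_, List.mem_cons_self, hz⟩
          · exact ⟨e, List.mem_cons_of_mem _ he, he2⟩
      rw [h2]
      refine ih.step ?_ ?_
      · intro h3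
        obtain ⟨e, he, he2⟩ := mem_Sk.1 h3
        exact h1.2.1 e he he2
      · have h3 := h1.2.2
        unfold wg at h3
        rw [kw_hsq (kap_len h₀ ω) ht, kn_Sk h₀ hN hc2] at h3
        unfold mm
        rw [← kap_mem κ₀ ω ⟨z, hx⟩]
        exact h3
    · have h2 : Sk κ₀ ω F B c t (k + 1) = Sk κ₀ ω F B c t k := by
        refine subset_antisymm ?_ (Sk_mono (by omega))
        intro x hx
        rw [mem_Sk] at hx ⊢
        obtain ⟨e, he, he2⟩ := hx
        rw [hsq, List.mem_cons] at he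
        rcases he with rfl | he
        · exact absurd ⟨x.1, he2⟩ hz
        · exact ⟨e, he, he2⟩
      rw [h2]
      exact ih

/-- without heavy strings all weights are small -/
theorem light_Sk (h₀ : ∀ z, (κ₀ z).length = 4 * z.length + 1) (hN : t.length = N₀)
    (ht : ∀ s, idx s < t.length → t.getD (idx s) false = gK (kap κ₀ ω) s)
    (hc2 : ∀ q k, Sum.inr (true, q, k) ∈ c.2 → q.length ≤ L) {k : ℕ}
    (H : ¬ ∃ u, HV F B c t (hsq (kap κ₀ ω) F B c t k) u) (x : XT N₀ L)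
    (hx : x ∉ Sk κ₀ ω F B c t k) : mm F c κ₀ (Sk κ₀ ω F B c t k) ω x (ω x) ≤ 1 / (B : ℝ) := by
  by_contra h
  push Not at h
  apply H
  refine ⟨kz (kap κ₀ ω x.1) x.1, ?_, ?_, ?_⟩
  · rw [length_kz (kap_len h₀ ω), hN]
    exact (mem_XS.1 x.2).2
  · intro e he he2
    exact hx (mem_Sk.2 ⟨e, he, he2⟩)
  · unfold wg
    rw [kw_hsq (kap_len h₀ ω) ht, kn_Sk h₀ hN hc2]
    unfold mm at h
    rw [← kap_mem κ₀ ω x] at h
    exact h

/-- the last world is good -/
theorem close_Sk (h₀ : ∀ z, (κ₀ z).length = 4 * z.length + 1) (hN : t.length = N₀)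
    (ht : ∀ s, idx s < t.length → t.getD (idx s) false = gK (kap κ₀ ω) s)
    (hc2 : ∀ q k, Sum.inr (true, q, k) ∈ c.2 → q.length ≤ L) (hLB : L ≤ B) (k : ℕ) :
    |accProb (cmb (trc B SB) (kw t (hsq (kap κ₀ ω) (trc B SB) B c t k))) c -
      accProb (cmb SB (gK (kap κ₀ ω))) c| ≤ 4 * Real.sqrt (c.2.length *
        ∑ x ∈ (Sk κ₀ ω (trc B SB) B c t k)ᶜ,
          mm (trc B SB) c κ₀ (Sk κ₀ ω (trc B SB) B c t k) ω x (ω x)) := by
  obtain ⟨S, hS⟩ : ∃ S, S = Sk κ₀ ω (trc B SB) B c t k := ⟨_, rfl⟩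
  obtain ⟨w, hw⟩ : ∃ w : List Bool → ℝ, w = fun q =>
    ∑ x ∈ Sᶜ, uq (kz (List.ofFn (ω x)) x.1) q := ⟨_, rfl⟩
  obtain ⟨A, hA⟩ : ∃ A : Oracle, A = cmb (trc B SB) (gZ (kap κ₀ ω) (sS S)) := ⟨_, rfl⟩
  obtain ⟨A', hA'⟩ : ∃ A' : Oracle, A' = fun q => if q.length ≤ L then
    cmb SB (gK (kap κ₀ ω)) q else A q := ⟨_, rfl⟩
  rw [kw_hsq (kap_len h₀ ω) ht, kn_Sk h₀ hN hc2, ← hS, ← hA]
  have h1 : accProb (cmb SB (gK (kap κ₀ ω))) c = accProb A' c := by
    refine accProb_local (N := 0) fun q k hq y hy => ?_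
    rw [hA']
    beta_reduce
    rw [if_pos]
    have := hc2 q k hq
    omega
  rw [h1]
  have hw0 : ∀ q, 0 ≤ w q := by
    intro q
    rw [hw]
    exact Finset.sum_nonneg fun x _ => uq_nonneg _ _
  have h2 := acc_close (A := A) (A' := A') hw0 (fun q hq => ?_) c
  · refine h2.trans (le_of_eq ?_)
    congr 3
    rw [hw]
    unfold cm
    rw [mass_sum]
    refine Finset.sum_congr rfl fun x _ => ?_
    rw [hA]
    rfl
  · by_contra hlt
    apply hq
    rw [hA']
    beta_reduce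
    split_ifs with hl
    swap
    · rfl
    rw [hA]
    refine cmb_congr (fun q' hq' => ?_) ?_
    · unfold trc
      rw [if_pos (by omega)]
    · unfold gZ
      split_ifs with hz
      · rfl
      · cases hg : gK (kap κ₀ ω) (gq q) with
        | false => rfl
        | true =>
          exfalso
          obtain ⟨d, z, hqz⟩ := gK_true hg
          rw [hqz] at hz
          have hz1 : (unpair ((true :: d :: kz (kap κ₀ ω z) z).drop 2)).2 = z := unpair_kz _ _
          rw [hz1] at hz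
          have hlen : (gq q).length ≤ L := (length_gq q).trans hl
          rw [hqz, List.length_cons, List.length_cons, length_kz (kap_len h₀ ω)] at hlen
          have hx : z ∈ XS N₀ L := mem_XS.2 ⟨by omega, fun h => hz (Or.inl h)⟩
          have hxS : (⟨z, hx⟩ : XT N₀ L) ∈ Sᶜ := by
            rw [Finset.mem_compl]
            exact fun h => hz (Or.inr ⟨hx, h⟩)
          apply hlt
          rw [hw]
          refine le_trans ?_ (Finset.single_le_sum
            (f := fun x : XT N₀ L => uq (kz (List.ofFn (ω x)) x.1) q)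
            (fun x _ => uq_nonneg _ _) hxS)
          unfold uq
          rw [if_pos]
          rw [hqz, ← kap_mem κ₀ ω ⟨z, hx⟩]
          cases d with
          | false => exact Or.inl rfl
          | true => exact Or.inr rfl

end

end Pool.Agent.W908.MS
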