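import Pool.Agent.W908.M.M5
import Pool.Agent.W908.P.P6

/-! The algorithm is right unless a rare event happens. -/

set_option autoImplicit false

namespace Pool.Agent.W908.MS

open Pool.Agent.NPC Pool.Agent.H620R2.Gauge Pool.Agent.H622R2 Pool.Agent.H676 Finset
open Pool.Agent.W908.PS (cmb gq cmb_congr length_gq tbl tab tab_tbl)
open Pool.Agent.W908.SP (mem_strsOf')
open Pool.Agent.W908.QS (QAlg qgen qgen_surj qbd qbd_len qbd_ques acc_local cm cm_le cm_nonneg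
  mass_sum acc_close acc_nonneg)

/-- the rare event -/
def Bd {N₀ L : ℕ} (F : Oracle) (B r : ℕ) (c : List Unit × List Gate)
    (κ₀ : List Bool → List Bool) (ω : ∀ x : XT N₀ L, VT x) : Prop :=
  ∃ S, Reach (fun S ω x v => 1 / (B : ℝ) < mm F c κ₀ S ω x v) ω S ∧ (r ≤ S.card ∨
    ((∀ x, x ∉ S → mm F c κ₀ S ω x (ω x) ≤ 1 / (B : ℝ)) ∧
      1 / (1024 * ((L : ℝ) + 1)) < ∑ x ∈ Sᶜ, mm F c κ₀ S ω x (ω x)))

theorem mm_short {N₀ L : ℕ} (F : Oracle) (c : List Unit × List Gate)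
    {κ₀ κ₀' : List Bool → List Bool}
    (h : ∀ z : List Bool, 2 ^ (9 * z.length + 4) ≤ N₀ → κ₀ z = κ₀' z) :
    (mm F c κ₀ : Finset (XT N₀ L) → (∀ x : XT N₀ L, VT x) → (x : XT N₀ L) → VT x → ℝ) =
      mm F c κ₀' := by
  funext S ω x v
  unfold mm
  rw [gZ_congr (κ := kap κ₀ ω) (κ' := kap κ₀' ω) (Z := sS S)]
  intro z hz
  unfold kap
  by_cases hx : z ∈ XS N₀ L
  · rw [dif_pos hx, dif_pos hx]
  · rw [dif_neg hx, dif_neg hx]
    rcases hz with hz | ⟨hz, -⟩
    · exact h z hz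
    · exact absurd hz hx

theorem Bd_short {N₀ L : ℕ} {F : Oracle} {B r : ℕ} {c : List Unit × List Gate}
    {κ₀ κ₀' : List Bool → List Bool}
    (h : ∀ z : List Bool, 2 ^ (9 * z.length + 4) ≤ N₀ → κ₀ z = κ₀' z)
    (ω : ∀ x : XT N₀ L, VT x) : Bd F B r c κ₀ ω ↔ Bd F B r c κ₀' ω := by
  unfold Bd
  rw [mm_short (N₀ := N₀) (L := L) F c h]

/-- the algorithm is right -/
theorem dec_right {e x : List Bool} {P b T : Polynomial ℕ} {L N₀ r : ℕ}
    {κ₀ : List Bool → List Bool} {ω : ∀ x : XT N₀ L, VT x}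
    (h₀ : ∀ z, (κ₀ z).length = 4 * z.length + 1)
    (hL : (qbd (qgen e).1).eval x.length = L) (hN : P.eval x.length = N₀)
    (hLB : L ≤ b.eval x.length) (hb0 : 0 < b.eval x.length)
    (hT : ∀ m, x.length ≤ m → b.eval x.length * b.eval x.length * r < T.eval m)
    (hbad : ¬ Bd (trc (b.eval x.length) SB) (b.eval x.length) r ((qgen e).1.C x) κ₀ ω) :
    (2 / 3 ≤ accProb (cmb SB (gK (kap κ₀ ω))) ((qgen e).1.C x) →
      dec e P b T (kap κ₀ ω) x = [true]) ∧
    (accProb (cmb SB (gK (kap κ₀ ω))) ((qgen e).1.C x) ≤ 1 / 3 →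
      dec e P b T (kap κ₀ ω) x ≠ [true]) := by
  classical
  obtain ⟨B, hB⟩ : ∃ B, B = b.eval x.length := ⟨_, rfl⟩
  obtain ⟨κ, hκd⟩ : ∃ κ, κ = kap κ₀ ω := ⟨_, rfl⟩
  obtain ⟨c, hc⟩ : ∃ c, c = (qgen e).1.C x := ⟨_, rfl⟩
  obtain ⟨t, htd⟩ : ∃ t, t = tbl P (gK κ) x.length := ⟨_, rfl⟩
  obtain ⟨R, hR⟩ : ∃ R, R = T.eval (pairBits x t).length := ⟨_, rfl⟩
  have hc1 : c.2.length ≤ L := by
    rw [hc, ← hL]
    exact qbd_len _ _
  have hc2 : ∀ q k, Sum.inr (true, q, k) ∈ c.2 → q.length ≤ L := by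
    rw [hc, ← hL]
    exact qbd_ques _ _
  have htl : t.length = N₀ := by
    rw [htd, ← hN]
    unfold tbl
    rw [List.length_map, List.length_range]
  have ht : ∀ s, idx s < t.length → t.getD (idx s) false = gK κ s := by
    intro s hs
    have h1 := tab_tbl P (gK κ) x.length s
    rw [← htd] at h1
    unfold tab at h1
    rw [h1, if_pos]
    rw [htl, ← hN] at hs
    exact hs
  have hκ : ∀ z, (κ z).length = 4 * z.length + 1 := by
    rw [hκd]
    exact kap_len h₀ ω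
  have hdec : dec e P b T κ x =
      [decide (1 / 2 ≤ accProb (cmb (trc B SB) (kw t (hsq κ (trc B SB) B c t R))) c)] := by
    unfold dec lq
    rw [List.map_cons, List.map_nil, ← htd, ← hR]
    congr 1
    show SB (scode _ _ _ _) = _
    rw [SB_scode]
    have hbl : bl b (pairBits (pairBits x t) (an e b (cmb SB (gK κ)) (pairBits x t) R)) = B := by
      unfold bl
      rw [unpair_pairBits, unpair_pairBits]
      exact hB.symm
    rw [hbl, List.length_replicate, unpair_pairBits, unpair_pairBits]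
    simp only
    unfold slv
    rw [an_hsq (κ := κ) (t := t) (L := L) (by rw [← hc]; exact hc2) hB.symm
      (by rw [hB]; exact hLB), ← hc]
  rw [← hB] at hLB hb0 hT hbad
  rw [← hc] at hbad ⊢
  have htω : ∀ s, idx s < t.length → t.getD (idx s) false = gK (kap κ₀ ω) s := by
    rw [← hκd]
    exact ht
  have hreach := fun k => reach_Sk (F := trc B SB) (B := B) (c := c) h₀ htl htω hc2 k
  have hcard : ∀ k, (Sk κ₀ ω (trc B SB) B c t k).card < r := by
    intro k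
    by_contra h
    push Not at h
    exact hbad ⟨_, hreach k, Or.inl h⟩
  have hstop : ¬ ∃ u, HV (trc B SB) B c t (hsq κ (trc B SB) B c t R) u := by
    refine stop hκ ht (fun k => Sk κ₀ ω (trc B SB) B c t k) (fun k l h => Sk_mono h) ?_
      (hc1.trans hLB) hb0 hcard ?_
    · intro k l h
      rw [hκd, kn_Sk h₀ htl hc2, kn_Sk h₀ htl hc2, h]
    · rw [hR]
      refine hT _ ?_
      rw [A2.length_pairBits]
      omega
  have hlight : ∀ y, y ∉ Sk κ₀ ω (trc B SB) B c t R →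
      mm (trc B SB) c κ₀ (Sk κ₀ ω (trc B SB) B c t R) ω y (ω y) ≤ 1 / (B : ℝ) := by
    intro y hy
    refine light_Sk h₀ htl htω hc2 ?_ y hy
    rw [← hκd]
    exact hstop
  have hsum : ∑ y ∈ (Sk κ₀ ω (trc B SB) B c t R)ᶜ,
      mm (trc B SB) c κ₀ (Sk κ₀ ω (trc B SB) B c t R) ω y (ω y) ≤ 1 / (1024 * ((L : ℝ) + 1)) := by
    by_contra h
    push Not at h
    exact hbad ⟨_, hreach R, Or.inr ⟨hlight, h⟩⟩
  have hclose := close_Sk h₀ htl htω hc2 hLB R
  rw [← hκd] at hclose ⊢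
  have hsq : 4 * Real.sqrt (c.2.length * ∑ y ∈ (Sk κ₀ ω (trc B SB) B c t R)ᶜ,
      mm (trc B SB) c κ₀ (Sk κ₀ ω (trc B SB) B c t R) ω y (ω y)) ≤ 1 / 8 := by
    have hL0 : (0 : ℝ) ≤ L := Nat.cast_nonneg _
    have h1 : (c.2.length * ∑ y ∈ (Sk κ₀ ω (trc B SB) B c t R)ᶜ,
        mm (trc B SB) c κ₀ (Sk κ₀ ω (trc B SB) B c t R) ω y (ω y)) ≤ (1 / 32 : ℝ) ^ 2 := by
      calc (c.2.length * ∑ y ∈ (Sk κ₀ ω (trc B SB) B c t R)ᶜ,
          mm (trc B SB) c κ₀ (Sk κ₀ ω (trc B SB) B c t R) ω y (ω y)) ≤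
          (L : ℝ) * (1 / (1024 * ((L : ℝ) + 1))) := by
            refine mul_le_mul ?_ hsum (Finset.sum_nonneg fun y _ => mm_nonneg _ _ _ _ _ _ _)
              hL0
            exact_mod_cast hc1
        _ ≤ (1 / 32 : ℝ) ^ 2 := by
            rw [mul_one_div, div_le_iff₀ (by positivity)]
            nlinarith
    have h2 := Real.sqrt_le_sqrt h1
    rw [Real.sqrt_sq (by norm_num)] at h2
    linarith
  have h3 := hclose.trans hsq
  rw [abs_le] at h3
  rw [hdec]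
  constructor
  · intro h
    rw [decide_eq_true]
    linarith
  · intro h
    rw [decide_eq_false]
    · simp
    · push Not
      linarith

end Pool.Agent.W908.MS
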