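import Pool.Agent.W908.M.M6

/-! The rare event is rare: counting. -/

set_option autoImplicit false

namespace Pool.Agent.W908.MS

open Pool.Agent.NPC Pool.Agent.H620R2.Gauge Pool.Agent.H622R2 Pool.Agent.H676 Finset
open Pool.Agent.W908.PS (cmb gq cmb_congr length_gq)
open Pool.Agent.W908.SP (mem_strsOf' card_strsOf')
open Pool.Agent.W908.QS (cm cm_le cm_nonneg mass_sum)

variable {N₀ L : ℕ}

theorem kz_inj {x : XT N₀ L} {v v' : VT x} (h : kz (List.ofFn v) x.1 = kz (List.ofFn v') x.1)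
    (hl : v (Fin.last _) = v' (Fin.last _)) : v = v' := by
  unfold kz at h
  have h1 := congrArg (fun u => (unpair u).1) h
  simp only [unpair_pairBits] at h1
  funext i
  rcases Fin.eq_castSucc_or_eq_last i with ⟨j, rfl⟩ | rfl
  · have h2 : ((List.ofFn v).take (4 * x.1.length))[j.val]? =
        ((List.ofFn v').take (4 * x.1.length))[j.val]? := by rw [h1]
    have hj : j.val < (List.ofFn v).length := by
      rw [List.length_ofFn]
      omega
    have hj' : j.val < (List.ofFn v').length := by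
      rw [List.length_ofFn]
      omega
    rw [List.getElem?_take_of_lt j.2, List.getElem?_take_of_lt j.2,
      List.getElem?_eq_getElem hj, List.getElem?_eq_getElem hj', Option.some.injEq,
      List.getElem_ofFn, List.getElem_ofFn] at h2
    exact h2
  · exact hl

theorem sum_uqv (x : XT N₀ L) (q : List Bool) :
    ∑ v : VT x, uq (kz (List.ofFn v) x.1) q ≤ 2 := by
  have h1 : ∀ v ∈ (univ : Finset (VT x)), uq (kz (List.ofFn v) x.1) q ≤
      if kz (List.ofFn v) x.1 = (gq q).drop 2 then (1 : ℝ) else 0 := by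
    intro v _
    unfold uq
    by_cases h : gq q = true :: false :: kz (List.ofFn v) x.1 ∨
      gq q = true :: true :: kz (List.ofFn v) x.1
    · rw [if_pos h, if_pos]
      rcases h with h | h <;> rw [h] <;> rfl
    · rw [if_neg h]
      split_ifs <;> norm_num
  refine (Finset.sum_le_sum h1).trans ?_
  rw [Finset.sum_boole]
  have h2 : (univ.filter (fun v : VT x => kz (List.ofFn v) x.1 = (gq q).drop 2)).card ≤
      (univ : Finset Bool).card := by
    refine Finset.card_le_card_of_injOn (fun v => v (Fin.last _))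
      (fun v _ => Finset.mem_coe.2 (Finset.mem_univ _)) ?_
    intro v hv v' hv' h
    rw [Finset.mem_coe, Finset.mem_filter] at hv hv'
    exact kz_inj (hv.2.trans hv'.2.symm) h
  rw [Finset.card_univ, Fintype.card_bool] at h2
  exact_mod_cast h2

theorem sum_mm (F : Oracle) (c : List Unit × List Gate)
    (κ₀ : List Bool → List Bool) (S : Finset (XT N₀ L)) (ω : ∀ x : XT N₀ L, VT x)
    (x : XT N₀ L) : ∑ v, mm F c κ₀ S ω x v ≤ c.2.length * 2 := by
  have h1 : ∑ v, mm F c κ₀ S ω x v = cm (cmb F (gZ (kap κ₀ ω) (sS S)))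
      (fun q => ∑ v : VT x, uq (kz (List.ofFn v) x.1) q) c := by
    unfold mm cm
    rw [mass_sum]
  rw [h1]
  exact cm_le (by norm_num) _ _ fun q k _ y _ => sum_uqv x y

theorem card_VT (x : XT N₀ L) : (Fintype.card (VT x) : ℝ) = 2 * 16 ^ x.1.length := by
  have : Fintype.card (VT x) = 2 ^ (4 * x.1.length + 1) := by simp [VT]
  rw [this]
  push_cast
  rw [pow_succ, pow_mul]
  norm_num
  ring

open Classical in
theorem frac_mm (F : Oracle) {B : ℕ} (hB0 : 0 < B) (c : List Unit × List Gate)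
    (hc1 : c.2.length ≤ L) (κ₀ : List Bool → List Bool) (S : Finset (XT N₀ L))
    (ω : ∀ x : XT N₀ L, VT x) (x : XT N₀ L) :
    ((univ.filter (fun v => 1 / (B : ℝ) < mm F c κ₀ S ω x v)).card : ℝ) ≤
      (L * B * (1 / 16) ^ x.1.length) * Fintype.card (VT x) := by
  have hB1 : (0 : ℝ) < B := by exact_mod_cast hB0
  have h1 : ((univ.filter (fun v => 1 / (B : ℝ) < mm F c κ₀ S ω x v)).card : ℝ) * (1 / B) ≤
      c.2.length * 2 := by
    rw [← nsmul_eq_mul, ← Finset.sum_const]
    refine le_trans ?_ (sum_mm F c κ₀ S ω x)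
    refine (Finset.sum_le_sum (g := fun v => mm F c κ₀ S ω x v) fun v hv =>
      (Finset.mem_filter.1 hv).2.le).trans ?_
    exact Finset.sum_le_sum_of_subset_of_nonneg (Finset.filter_subset _ _)
      fun v _ _ => mm_nonneg _ _ _ _ _ _ _
  rw [mul_one_div, div_le_iff₀ hB1] at h1
  refine h1.trans ?_
  rw [card_VT]
  have h2 : (L : ℝ) * B * (1 / 16) ^ x.1.length * (2 * 16 ^ x.1.length) = L * 2 * B := by
    rw [one_div, inv_pow]
    field_simp
  rw [h2]
  apply mul_le_mul_of_nonneg_right _ hB1.le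
  apply mul_le_mul_of_nonneg_right _ (by norm_num)
  exact_mod_cast hc1

theorem sum_XT {Y : ℕ} (hY : 0 < Y) (hN : N₀ = 16 * Y ^ 3) :
    ∑ x : XT N₀ L, (1 / 16 : ℝ) ^ x.1.length ≤ (L + 1) / Y := by
  have h0 : ∑ x : XT N₀ L, (1 / 16 : ℝ) ^ x.1.length =
      ∑ z ∈ XS N₀ L, (1 / 16 : ℝ) ^ z.length :=
    Finset.sum_coe_sort (XS N₀ L) (fun z => (1 / 16 : ℝ) ^ z.length)
  rw [h0]
  have h1 := Finset.sum_fiberwise_of_maps_to (s := XS N₀ L) (t := range (L + 1))
    (g := fun z => z.length) (fun z hz => by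
      rw [Finset.mem_range]
      have := (mem_XS.1 hz).1
      omega) (fun z => (1 / 16 : ℝ) ^ z.length)
  rw [← h1]
  have hY1 : (0 : ℝ) < Y := by exact_mod_cast hY
  have h2 : ∀ l ∈ range (L + 1), ∑ z ∈ XS N₀ L with z.length = l, (1 / 16 : ℝ) ^ z.length ≤
      1 / Y := by
    intro l _
    by_cases hl : 2 ^ (9 * l + 4) ≤ N₀
    · have : (XS N₀ L).filter (fun z => z.length = l) = ∅ := by
        refine Finset.filter_false_of_mem fun z hz h => ?_
        exact (mem_XS.1 hz).2 (by rw [h]; exact hl)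
      rw [this, Finset.sum_empty]
      positivity
    · have h3 : ∑ z ∈ XS N₀ L with z.length = l, (1 / 16 : ℝ) ^ z.length =
          ∑ z ∈ XS N₀ L with z.length = l, (1 / 16 : ℝ) ^ l :=
        Finset.sum_congr rfl fun z hz => by rw [(Finset.mem_filter.1 hz).2]
      rw [h3, Finset.sum_const, nsmul_eq_mul]
      have h4 : ((XS N₀ L).filter (fun z => z.length = l)).card ≤ 2 ^ l := by
        rw [← card_strsOf' l]
        refine Finset.card_le_card fun z hz => ?_
        rw [mem_strsOf']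
        exact (Finset.mem_filter.1 hz).2
      have h5 : Y < 8 ^ l := by
        rw [hN] at hl
        push Not at hl
        have h6 : 2 ^ (9 * l + 4) = 16 * (8 ^ l) ^ 3 := by
          rw [pow_add, show 9 * l = 3 * l * 3 by ring, pow_mul, pow_mul]
          norm_num
          ring
        rw [h6] at hl
        have h7 : Y ^ 3 < (8 ^ l) ^ 3 := by omega
        exact lt_of_pow_lt_pow_left₀ 3 (by positivity) h7
      have h6 : (Y : ℝ) ≤ 8 ^ l := by exact_mod_cast h5.le
      calc ((((XS N₀ L).filter (fun z => z.length = l)).card : ℕ) : ℝ) * (1 / 16) ^ l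
          ≤ 2 ^ l * (1 / 16) ^ l := by
            apply mul_le_mul_of_nonneg_right _ (by positivity)
            exact_mod_cast h4
        _ = 1 / 8 ^ l := by
            rw [← mul_pow, one_div (8 ^ l : ℝ), ← inv_pow]
            norm_num
        _ ≤ 1 / Y := one_div_le_one_div_of_le hY1 h6
  refine (Finset.sum_le_sum h2).trans ?_
  rw [Finset.sum_const, Finset.card_range, nsmul_eq_mul]
  push_cast
  rw [mul_one_div]

open Classical in
theorem card_Bd {B r Y : ℕ} (F : Oracle) (c : List Unit × List Gate)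
    (κ₀ : List Bool → List Bool) (hc1 : c.2.length ≤ L) (hLB : L ≤ B) (hB0 : 0 < B)
    (hY : 8 * (B + 1) ^ 3 ≤ Y) (hN : N₀ = 16 * Y ^ 3) :
    ((univ.filter (fun ω : ∀ x : XT N₀ L, VT x => Bd F B r c κ₀ ω)).card : ℝ) ≤
      ((1 / 8) ^ r + 2 * Real.exp (-(B / (1024 * ((L : ℝ) + 1))) + 1 / 4)) *
        Fintype.card (∀ x : XT N₀ L, VT x) := by
  have hB1 : (0 : ℝ) < B := by exact_mod_cast hB0
  have hY0 : 0 < Y := lt_of_lt_of_le (by positivity) hY
  have hY1 : (0 : ℝ) < Y := by exact_mod_cast hY0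
  have hYr : 8 * ((B : ℝ) + 1) ^ 3 ≤ Y := by exact_mod_cast hY
  have hLr : (L : ℝ) ≤ B := by exact_mod_cast hLB
  have hL0 : (0 : ℝ) ≤ L := Nat.cast_nonneg _
  have hsX := sum_XT (L := L) hY0 hN
  have hW : (L : ℝ) * ((L + 1) / Y) * B ≤ 1 / 8 := by
    have h1 : (L : ℝ) * (L + 1) * B ≤ (B + 1) ^ 3 := by
      have h2 : (L : ℝ) * (L + 1) ≤ (B + 1) * (B + 1) := by nlinarith
      nlinarith
    rw [← mul_div_assoc, div_mul_eq_mul_div, div_le_iff₀ hY1]
    linarith
  have hB2 : (0 : ℝ) < 1 / B := by positivity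
  have hρ : ∀ x : XT N₀ L, (0 : ℝ) ≤ L * B * (1 / 16) ^ x.1.length := fun x => by positivity
  have hσ : ∑ x : XT N₀ L, (L : ℝ) * B * (1 / 16) ^ x.1.length ≤ 1 / 8 := by
    rw [← Finset.mul_sum]
    refine (mul_le_mul_of_nonneg_left hsX (by positivity)).trans ?_
    calc (L : ℝ) * B * ((L + 1) / Y) = L * ((L + 1) / Y) * B := by ring
      _ ≤ 1 / 8 := hW
  have hE : ∀ (S : Finset (XT N₀ L)) (ω : ∀ x : XT N₀ L, VT x),
      ∑ x, (∑ v, mm F c κ₀ S ω x v) / Fintype.card (VT x) ≤ L * ((L + 1) / Y) := by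
    intro S ω
    refine (Finset.sum_le_sum (g := fun x : XT N₀ L => (L : ℝ) * (1 / 16) ^ x.1.length)
      fun x _ => ?_).trans ?_
    · rw [card_VT, div_le_iff₀ (by positivity)]
      refine (sum_mm F c κ₀ S ω x).trans ?_
      have h2 : (L : ℝ) * (1 / 16) ^ x.1.length * (2 * 16 ^ x.1.length) = L * 2 := by
        rw [one_div, inv_pow]
        field_simp
      rw [h2]
      apply mul_le_mul_of_nonneg_right _ (by norm_num)
      exact_mod_cast hc1
    · rw [← Finset.mul_sum]
      exact mul_le_mul_of_nonneg_left hsX hL0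
  have h := card_bad (X := XT N₀ L) (V := fun x => VT x) (m := mm F c κ₀)
    (θ := 1 / B) (δ := 1 / (1024 * ((L : ℝ) + 1))) (E := L * ((L + 1) / Y)) hB2
    (mm_local F c κ₀) (mm_nonneg F c κ₀) (ρ := fun x => L * B * (1 / 16) ^ x.1.length) hρ
    (frac_mm F hB0 c hc1 κ₀) (σ := 1 / 8) hσ (by norm_num) hE r
  refine le_trans (Nat.cast_le.2 (Finset.card_le_card (fun ω hω => ?_))) (h.trans ?_)
  · rw [Finset.mem_filter] at hω ⊢
    exact hω
  apply mul_le_mul_of_nonneg_right _ (Nat.cast_nonneg _)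
  refine add_le_add_right ?_ _
  apply mul_le_mul_of_nonneg_left _ (by norm_num)
  apply Real.exp_le_exp.2
  have e1 : 1 / (1024 * ((L : ℝ) + 1)) / (1 / B) = B / (1024 * (L + 1)) := by
    field_simp
  have e2 : 2 * ((L : ℝ) * ((L + 1) / Y)) / (1 / B) = 2 * (L * ((L + 1) / Y) * B) := by
    field_simp
  rw [e1, e2]
  linarith

end Pool.Agent.W908.MS
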