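import Pool.Agent.W908.M.M7
import Pool.Agent.W908.K.K10

/-! The event is rare for a random oracle. -/

set_option autoImplicit false

namespace Pool.Agent.W908.MS

open Pool.Agent.NPC Pool.Agent.H620R2.Gauge Pool.Agent.H622R2 Pool.Agent.H676 Finset H568R2
open Pool.Agent.W908.PS (cmb gq cmb_congr length_gq Rare pre_local idx_lt_pow)
open Pool.Agent.W908.SP (mem_strsOf' card_strsOf' idx_inj Ex_owr Ex_unif_av unif_nn unif_sm)
open Pool.Agent.H591R3.PHG.Proj (owr owr_e owr_off owr_owr)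
open Pool.Agent.W908.QS (QAlg qgen qgen_surj qbd qbd_len qbd_ques)
open Pool.Agent.W908.KS (kp length_kp kp_inj)

/-- the values in an oracle -/
def val (W : Oracle) (z : List Bool) : List Bool :=
  (List.range (4 * z.length + 1)).map (fun i => W (kp z i))

theorem length_val (W : Oracle) (z : List Bool) : (val W z).length = 4 * z.length + 1 := by
  unfold val
  rw [List.length_map, List.length_range]

/-- the values of the long strings -/
def om (N₀ L : ℕ) (W : Oracle) : ∀ x : XT N₀ L, VT x := fun x i => W (kp x.1 i.val)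

theorem kap_val (N₀ L : ℕ) (W : Oracle) : kap (val W) (om N₀ L W) = val W := by
  funext z
  unfold kap
  split_ifs with h
  · refine List.ext_getElem ?_ fun i h1 h2 => ?_
    · rw [List.length_ofFn, length_val]
    · rw [List.getElem_ofFn]
      have h3 : (val W z)[i] = W (kp z i) := by
        simp only [val, List.getElem_map, List.getElem_range]
      rw [h3]
      rfl
  · rfl

variable {N₀ L : ℕ}

/-- the free positions -/
abbrev GT (N₀ L : ℕ) : Type := Σ x : XT N₀ L, Fin (4 * x.1.length + 1)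

/-- the position of a bit -/
def stm (g : GT N₀ L) : List Bool := kp g.1.1 g.2.val

theorem stm_inj : Function.Injective (stm : GT N₀ L → List Bool) := by
  rintro ⟨x, i⟩ ⟨x', i'⟩ h
  obtain ⟨h1, h2⟩ := kp_inj h
  have hx : x = x' := Subtype.ext h1
  subst hx
  exact congrArg (Sigma.mk x) (Fin.ext h2)

theorem length_stm (g : GT N₀ L) : (stm g).length ≤ 9 * L + 3 := by
  unfold stm
  rw [length_kp]
  have h1 := (mem_XS.1 g.1.2).1
  have h2 := g.2.2
  omega

/-- the positions -/
def sem {N : ℕ} (hN : 2 ^ (9 * L + 4) ≤ N) (g : GT N₀ L) : Fin N :=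
  ⟨idx (stm g), (idx_lt_pow (length_stm g)).trans_le hN⟩

theorem sem_inj {N : ℕ} (hN : 2 ^ (9 * L + 4) ≤ N) :
    Function.Injective (sem hN : GT N₀ L → Fin N) := by
  intro g g' h
  exact stm_inj (idx_inj (congrArg Fin.val h))

theorem orc_on {N : ℕ} (hN : 2 ^ (9 * L + 4) ≤ N) (a : Fin N → Bool) (v : GT N₀ L → Bool)
    (g : GT N₀ L) : orc N (owr (sem hN) a v) (stm g) = v g := by
  unfold orc
  rw [dif_pos (show idx (stm g) < N from (sem hN g).2)]
  exact owr_e (sem_inj hN) a v g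

theorem orc_off' {N : ℕ} (hN : 2 ^ (9 * L + 4) ≤ N) (a : Fin N → Bool) (v : GT N₀ L → Bool)
    {q : List Bool} (hq : ∀ g : GT N₀ L, q ≠ stm g) :
    orc N (owr (sem hN) a v) q = orc N a q := by
  unfold orc
  split_ifs with h
  · refine owr_off _ _ ?_
    rintro ⟨g, hg⟩
    exact hq g (idx_inj (congrArg Fin.val hg)).symm
  · rfl

open Classical in
/-- the probability of the event, for one circuit -/
theorem Ex_Bd {N B r Y : ℕ} (F : Oracle) (c : List Unit × List Gate) (hc1 : c.2.length ≤ L)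
    (hLB : L ≤ B) (hB0 : 0 < B) (hY : 8 * (B + 1) ^ 3 ≤ Y) (hN₀ : N₀ = 16 * Y ^ 3)
    (hN : 2 ^ (9 * L + 4) ≤ N) : Ex unif (fun a : Fin N → Bool =>
      if Bd F B r c (val (orc N a)) (om N₀ L (orc N a)) then (1 : ℝ) else 0) ≤
      (1 / 8) ^ r + 2 * Real.exp (-(B / (1024 * ((L : ℝ) + 1))) + 1 / 4) := by
  rw [Ex_owr (sem (N₀ := N₀) hN) (sem_inj hN)]
  obtain ⟨β, hβ⟩ : ∃ β : ℝ, β = (1 / 8) ^ r +
    2 * Real.exp (-(B / (1024 * ((L : ℝ) + 1))) + 1 / 4) := ⟨_, rfl⟩
  rw [← hβ]
  refine (Ex_mono unif_nn (G := fun _ => β) fun a => ?_).trans (le_of_eq (Ex_const unif_sm _))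
  have h1 := card_Bd (N₀ := N₀) (r := r) F c (val (orc N a)) hc1 hLB hB0 hY hN₀
  rw [← hβ] at h1
  obtain ⟨E, hE⟩ : ∃ E : ((x : XT N₀ L) → VT x) ≃ (GT N₀ L → Bool),
    E = (Equiv.piCurry (fun (x : XT N₀ L) (_ : Fin (4 * x.1.length + 1)) => Bool)).symm :=
    ⟨_, rfl⟩
  rw [Ex_unif_av, ← E.sum_comp]
  have e1 : ∀ ω : (x : XT N₀ L) → VT x,
      (if Bd F B r c (val (orc N (owr (sem hN) a (E ω))))
        (om N₀ L (orc N (owr (sem hN) a (E ω)))) then (1 : ℝ) else 0) =
      if Bd F B r c (val (orc N a)) ω then (1 : ℝ) else 0 := by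
    intro ω
    have e2 : om N₀ L (orc N (owr (sem hN) a (E ω))) = ω := by
      funext x i
      show orc N (owr (sem hN) a (E ω)) (stm ⟨x, i⟩) = _
      rw [orc_on, hE]
      rfl
    rw [e2]
    have e3 := Bd_short (F := F) (B := B) (r := r) (c := c)
      (κ₀ := val (orc N (owr (sem hN) a (E ω)))) (κ₀' := val (orc N a)) (fun z hz => by
        unfold val
        refine List.map_congr_left fun i _ => orc_off' hN a _ fun g hg => ?_
        have h2 := (kp_inj hg).1
        exact (mem_XS.1 g.1.2).2 (by rw [← h2]; exact hz)) ω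
    simp only [e3]
  rw [Finset.sum_congr rfl fun ω _ => e1 ω, Finset.sum_boole]
  rw [div_le_iff₀ (by positivity)]
  refine h1.trans (le_of_eq ?_)
  congr 1
  have h3 := Fintype.card_congr E
  rw [h3, Fintype.card_fun, Fintype.card_bool]
  push_cast
  rfl

open Classical in
/-- the probability of the event, for all inputs of one length -/
theorem Ex_union {N B r Y n : ℕ} (F : Oracle) (C : List Bool → List Unit × List Gate)
    (hc1 : ∀ x : List Bool, x.length = n → (C x).2.length ≤ L)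
    (hLB : L ≤ B) (hB0 : 0 < B) (hY : 8 * (B + 1) ^ 3 ≤ Y) (hN₀ : N₀ = 16 * Y ^ 3)
    (hN : 2 ^ (9 * L + 4) ≤ N) : Ex unif (fun a : Fin N → Bool =>
      if ∃ x ∈ strsOf n, Bd F B r (C x) (val (orc N a)) (om N₀ L (orc N a))
        then (1 : ℝ) else 0) ≤
      2 ^ n * ((1 / 8) ^ r + 2 * Real.exp (-(B / (1024 * ((L : ℝ) + 1))) + 1 / 4)) := by
  have h1 : ∀ a : Fin N → Bool, (if ∃ x ∈ strsOf n, Bd F B r (C x) (val (orc N a))
      (om N₀ L (orc N a)) then (1 : ℝ) else 0) ≤ ∑ x ∈ strsOf n,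
      if Bd F B r (C x) (val (orc N a)) (om N₀ L (orc N a)) then (1 : ℝ) else 0 := by
    intro a
    by_cases hE : ∃ x ∈ strsOf n, Bd F B r (C x) (val (orc N a)) (om N₀ L (orc N a))
    · rw [if_pos hE]
      obtain ⟨x, hx, hx2⟩ := hE
      refine le_trans ?_ (Finset.single_le_sum (f := fun x => if Bd F B r (C x)
        (val (orc N a)) (om N₀ L (orc N a)) then (1 : ℝ) else 0)
        (fun x _ => by split_ifs <;> norm_num) hx)
      rw [if_pos hx2]
    · rw [if_neg hE]
      exact Finset.sum_nonneg fun x _ => by split_ifs <;> norm_num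
  refine (Ex_mono unif_nn h1).trans ?_
  rw [Ex_sum]
  refine (Finset.sum_le_sum fun x hx => Ex_Bd F (C x) (hc1 x (mem_strsOf'.1 hx)) hLB hB0 hY
    hN₀ hN).trans (le_of_eq ?_)
  rw [Finset.sum_const, nsmul_eq_mul, card_strsOf']
  push_cast
  rfl

/-- the event is local -/
theorem Bd_local {F : Oracle} {B r D : ℕ} {c : List Unit × List Gate} {W W' : Oracle}
    (hD : 9 * (L + N₀) + 3 ≤ D) (h : ∀ q : List Bool, q.length ≤ D → W q = W' q) :
    Bd F B r c (val W) (om N₀ L W) ↔ Bd F B r c (val W') (om N₀ L W') := by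
  have h1 : om N₀ L W = om N₀ L W' := by
    funext x i
    refine h _ ?_
    rw [length_kp]
    have h1 := (mem_XS.1 x.2).1
    have h2 := i.2
    omega
  rw [h1]
  refine Bd_short (fun z hz => ?_) _
  unfold val
  refine List.map_congr_left fun i hi => h _ ?_
  rw [List.mem_range] at hi
  rw [length_kp]
  have h2 : 9 * z.length + 4 < 2 ^ (9 * z.length + 4) := Nat.lt_two_pow_self
  omega

/-- quantum circuits with a promise can be replaced -/
def GoodE (e : List Bool) (W : Oracle) : Prop :=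
  ∃ D, IsFP (cmb SB (gK (val W))) D ∧ ∀ x : List Bool,
    (2 / 3 ≤ accProb (cmb SB (gK (val W))) ((qgen e).1.C x) → D x = [true]) ∧
    (accProb (cmb SB (gK (val W))) ((qgen e).1.C x) ≤ 1 / 3 → D x ≠ [true])

theorem par_bound {n K : ℕ} (hK : 0 < K) :
    (2 : ℝ) ^ n * ((1 / 8) ^ (n + K) + 2 * Real.exp (-((3 * n + K + 4 : ℕ) : ℝ) + 1 / 4)) ≤
      1 / (K * ((n + 1) * (n + 2))) := by
  have hK1 : (0 : ℝ) < K := by exact_mod_cast hK
  have h1 : ((n : ℝ) + 1) * (n + 2) ≤ 2 * 4 ^ n := by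
    have : ∀ n : ℕ, (n + 1) * (n + 2) ≤ 2 * 4 ^ n := by
      intro n
      induction n with
      | zero => norm_num
      | succ n ih =>
        rw [pow_succ]
        nlinarith
    exact_mod_cast this n
  have h2 : (4 : ℝ) * K ≤ 8 ^ K := by
    have : ∀ K : ℕ, 0 < K → 4 * K ≤ 8 ^ K := by
      intro K hK
      induction K with
      | zero => omega
      | succ K ih =>
        rw [pow_succ]
        rcases Nat.eq_zero_or_pos K with h | h
        · subst h
          norm_num
        · have := ih h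
          omega
    exact_mod_cast this K hK
  have h3 : (K : ℝ) ≤ 2 ^ K := by
    have : K < 2 ^ K := Nat.lt_two_pow_self
    exact_mod_cast this.le
  obtain ⟨Z, hZ⟩ : ∃ Z : ℝ, Z = K * ((n + 1) * (n + 2)) := ⟨_, rfl⟩
  have hZ0 : 0 < Z := by rw [hZ]; positivity
  rw [← hZ]
  have a1 : (2 : ℝ) ^ n * (1 / 8) ^ (n + K) ≤ 1 / (2 * Z) := by
    rw [pow_add, ← mul_assoc, ← mul_pow]
    have e1 : (2 * (1 / 8) : ℝ) ^ n * (1 / 8) ^ K = 1 / (4 ^ n * 8 ^ K) := by
      rw [one_div (4 ^ n * 8 ^ K : ℝ), mul_inv, ← inv_pow, ← inv_pow]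
      norm_num
    rw [e1]
    apply one_div_le_one_div_of_le (by positivity)
    calc 2 * Z = 2 * K * ((n + 1) * (n + 2)) := by rw [hZ]; ring
      _ ≤ 2 * K * (2 * 4 ^ n) := mul_le_mul_of_nonneg_left h1 (by positivity)
      _ = 4 ^ n * (4 * K) := by ring
      _ ≤ 4 ^ n * 8 ^ K := mul_le_mul_of_nonneg_left h2 (by positivity)
  have a2 : (2 : ℝ) ^ n * (2 * Real.exp (-((3 * n + K + 4 : ℕ) : ℝ) + 1 / 4)) ≤
      1 / (2 * Z) := by
    rw [Real.exp_add]
    have b1 : Real.exp (1 / 4) ≤ 2 := by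
      have h7 : Real.exp (1 / 4) ≤ Real.exp (1 / 2) := Real.exp_le_exp.2 (by norm_num)
      have h8 : Real.exp (1 / 2) * Real.exp (1 / 2) = Real.exp 1 := by
        rw [← Real.exp_add]
        norm_num
      have h9 := Real.exp_one_lt_d9
      have h10 := Real.exp_pos (1 / 2 : ℝ)
      nlinarith
    have b2 : Real.exp (-((3 * n + K + 4 : ℕ) : ℝ)) ≤ 1 / 2 ^ (3 * n + K + 4) := by
      rw [Real.exp_neg, ← one_div]
      apply one_div_le_one_div_of_le (by positivity)
      have h5 : (2 : ℝ) ≤ Real.exp 1 := by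
        have := Real.add_one_le_exp (1 : ℝ)
        linarith
      calc (2 : ℝ) ^ (3 * n + K + 4) ≤ Real.exp 1 ^ (3 * n + K + 4) :=
            pow_le_pow_left₀ (by norm_num) h5 _
        _ = _ := by rw [← Real.exp_nat_mul, mul_one]
    calc (2 : ℝ) ^ n * (2 * (Real.exp (-((3 * n + K + 4 : ℕ) : ℝ)) * Real.exp (1 / 4)))
        ≤ 2 ^ n * (2 * ((1 / 2 ^ (3 * n + K + 4)) * 2)) := by
          apply mul_le_mul_of_nonneg_left _ (by positivity)
          apply mul_le_mul_of_nonneg_left _ (by norm_num)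
          exact mul_le_mul b2 b1 (Real.exp_pos _).le (by positivity)
      _ = 1 / (4 * (4 ^ n * 2 ^ K)) := by
          have e1 : (2 : ℝ) ^ (3 * n + K + 4) = 2 ^ n * (4 ^ n * 2 ^ K) * 16 := by
            rw [show 3 * n + K + 4 = n + (2 * n + K) + 4 by ring, pow_add, pow_add, pow_add,
              pow_mul]
            norm_num
          rw [e1]
          field_simp
          norm_num
      _ ≤ 1 / (2 * Z) := by
          apply one_div_le_one_div_of_le (by positivity)
          calc 2 * Z = 2 * (((n + 1) * (n + 2)) * K) := by rw [hZ]; ring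
            _ ≤ 2 * ((2 * 4 ^ n) * 2 ^ K) := by
                apply mul_le_mul_of_nonneg_left _ (by norm_num)
                exact mul_le_mul h1 h3 hK1.le (by positivity)
            _ = 4 * (4 ^ n * 2 ^ K) := by ring
  have e2 : 1 / Z = 1 / (2 * Z) + 1 / (2 * Z) := by
    field_simp
    norm_num
  rw [e2, mul_add]
  exact add_le_add a1 a2

theorem rare_goodE (e : List Bool) : Rare {W | ¬ GoodE e W} := by
  classical
  intro K hK
  obtain ⟨Lp, hLp⟩ : ∃ Lp : Polynomial ℕ, Lp = qbd (qgen e).1 := ⟨_, rfl⟩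
  obtain ⟨b, hb⟩ : ∃ b : Polynomial ℕ, b = Polynomial.C 1024 * (Lp + 1) *
    (Polynomial.C 3 * Polynomial.X + Polynomial.C (K + 4)) := ⟨_, rfl⟩
  obtain ⟨Yp, hYp⟩ : ∃ Yp : Polynomial ℕ, Yp = Polynomial.C 8 * (b + 1) ^ 3 := ⟨_, rfl⟩
  obtain ⟨P, hP⟩ : ∃ P : Polynomial ℕ, P = Polynomial.C 16 * Yp ^ 3 := ⟨_, rfl⟩
  obtain ⟨T, hT⟩ : ∃ T : Polynomial ℕ, T = b * b * (Polynomial.X + Polynomial.C K) + 1 :=
    ⟨_, rfl⟩
  have hbe : ∀ n, b.eval n = 1024 * (Lp.eval n + 1) * (3 * n + K + 4) := by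
    intro n
    rw [hb]
    simp only [Polynomial.eval_mul, Polynomial.eval_add, Polynomial.eval_C, Polynomial.eval_X,
      Polynomial.eval_one]
    ring
  have hYe : ∀ n, Yp.eval n = 8 * (b.eval n + 1) ^ 3 := by
    intro n
    rw [hYp]
    simp only [Polynomial.eval_mul, Polynomial.eval_pow, Polynomial.eval_add, Polynomial.eval_C,
      Polynomial.eval_one]
  have hPe : ∀ n, P.eval n = 16 * (Yp.eval n) ^ 3 := by
    intro n
    rw [hP]
    simp only [Polynomial.eval_mul, Polynomial.eval_pow, Polynomial.eval_C]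
  have hTe : ∀ n, T.eval n = b.eval n * b.eval n * (n + K) + 1 := by
    intro n
    rw [hT]
    simp only [Polynomial.eval_mul, Polynomial.eval_add, Polynomial.eval_C, Polynomial.eval_X,
      Polynomial.eval_one]
  have hLb : ∀ n, Lp.eval n ≤ b.eval n := by
    intro n
    rw [hbe]
    have h1 : 1 ≤ 3 * n + K + 4 := by omega
    nlinarith [Nat.mul_le_mul_left (1024 * (Lp.eval n + 1)) h1]
  have hb0 : ∀ n, 0 < b.eval n := by
    intro n
    rw [hbe]
    positivity
  refine ⟨fun n => 2 ^ (9 * (Lp.eval n + P.eval n) + 3 + 1), fun n a => ∃ x ∈ strsOf n,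
    Bd (trc (b.eval n) SB) (b.eval n) (n + K) ((qgen e).1.C x) (val (orc _ a))
      (om (P.eval n) (Lp.eval n) (orc _ a)), fun n => ?_, fun W hW => ?_⟩
  · have h3 := Ex_union (N := 2 ^ (9 * (Lp.eval n + P.eval n) + 3 + 1)) (N₀ := P.eval n)
      (L := Lp.eval n) (B := b.eval n) (r := n + K) (Y := Yp.eval n) (n := n)
      (trc (b.eval n) SB) (qgen e).1.C (fun x hx => by rw [hLp, ← hx]; exact qbd_len _ _)
      (hLb n) (hb0 n) (hYe n).ge (hPe n) (Nat.pow_le_pow_right (by norm_num) (by omega))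
    have h4 : ((b.eval n : ℕ) : ℝ) / (1024 * (((Lp.eval n : ℕ) : ℝ) + 1)) =
        ((3 * n + K + 4 : ℕ) : ℝ) := by
      rw [hbe, div_eq_iff (by positivity)]
      push_cast
      ring
    rw [h4] at h3
    have h5 := h3.trans (par_bound hK)
    refine le_trans (le_of_eq ?_) h5
    congr 1
    funext a
    congr 1
  · by_contra hcon
    push Not at hcon
    apply hW
    refine ⟨dec e P b T (val W), isFP_dec e P b T (val W), fun x => ?_⟩
    have h1 := hcon x.length x (mem_strsOf'.2 rfl)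
    rw [Bd_local (W' := W) (D := 9 * (Lp.eval x.length + P.eval x.length) + 3) le_rfl
      (fun q hq => pre_local W le_rfl hq)] at h1
    have h2 := dec_right (e := e) (x := x) (P := P) (b := b) (T := T) (L := Lp.eval x.length)
      (N₀ := P.eval x.length) (r := x.length + K) (κ₀ := val W)
      (ω := om (P.eval x.length) (Lp.eval x.length) W) (length_val W) (by rw [hLp]) rfl
      (hLb _) (hb0 _) (fun m hm => by
        rw [hTe]
        have h3 := eval_mono b hm
        have h4 : b.eval x.length * b.eval x.length * (x.length + K) ≤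
            b.eval m * b.eval m * (m + K) :=
          Nat.mul_le_mul (Nat.mul_le_mul h3 h3) (by omega)
        omega) h1
    rw [kap_val] at h2
    exact h2

end Pool.Agent.W908.MS
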