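import Pool.Agent.W908.M.M8
import Pool.Agent.W908.J.J10

/-! The hidden bits cannot be foreseen. -/

set_option autoImplicit false

namespace Pool.Agent.W908.MS

open Pool.Agent.NPC Pool.Agent.H620R2.Gauge Pool.Agent.H622R2 Pool.Agent.H676 Finset H568R2
open Pool.Agent.W908.PS (cmb gq cmb_congr length_gq Rare pre_local idx_lt_pow)
open Pool.Agent.W908.SP (mem_strsOf' card_strsOf' idx_inj Ex_owr Ex_unif_av unif_nn unif_sm)
open Pool.Agent.H591R3.PHG.Proj (owr owr_e owr_off owr_owr)
open Pool.Agent.W908.KS (kp length_kp kp_inj Keyed fb fbE)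
open Pool.Agent.W908.KS.JS (key_tail)

/-- The oracle. -/
noncomputable def OM (W : Oracle) : Oracle := cmb SB (gK (val W))

/-- the strings of the free positions -/
def sth (n : ℕ) : ((Fin n → Bool) × Fin (4 * n)) ⊕ (Fin n → Bool) → List Bool
  | Sum.inl g => kp (List.ofFn g.1) g.2.val
  | Sum.inr x => kp (List.ofFn x) (4 * n)

theorem sth_inj (n : ℕ) : Function.Injective (sth n) := by
  intro g g' h
  match g, g' with
  | Sum.inl g, Sum.inl g' =>
    obtain ⟨h1, h2⟩ := kp_inj h
    exact congrArg Sum.inl (Prod.ext (List.ofFn_injective h1) (Fin.ext h2))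
  | Sum.inl g, Sum.inr x =>
    have := (kp_inj h).2
    have := g.2.2
    omega
  | Sum.inr x, Sum.inl g =>
    have := (kp_inj h).2
    have := g.2.2
    omega
  | Sum.inr x, Sum.inr x' =>
    exact congrArg Sum.inr (List.ofFn_injective (kp_inj h).1)

theorem length_sth (n : ℕ) (g : ((Fin n → Bool) × Fin (4 * n)) ⊕ (Fin n → Bool)) :
    (sth n g).length ≤ 9 * n + 3 := by
  match g with
  | Sum.inl g =>
    unfold sth
    have := g.2.2
    rw [length_kp, List.length_ofFn]
    omega
  | Sum.inr x =>
    unfold sth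
    rw [length_kp, List.length_ofFn]
    omega

/-- the positions -/
def seh (n : ℕ) {N : ℕ} (hN : 2 ^ (9 * n + 4) ≤ N)
    (g : ((Fin n → Bool) × Fin (4 * n)) ⊕ (Fin n → Bool)) : Fin N :=
  ⟨idx (sth n g), (idx_lt_pow (length_sth n g)).trans_le hN⟩

theorem seh_inj (n : ℕ) {N : ℕ} (hN : 2 ^ (9 * n + 4) ≤ N) :
    Function.Injective (seh n hN) := by
  intro g g' h
  exact sth_inj n (idx_inj (congrArg Fin.val h))

open Classical in
/-- the test in a question -/
noncomputable def tauh (n : ℕ) (q : List Bool) : Option ((Fin n → Bool) × (Fin (4 * n) → Bool)) :=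
  if h : ∃ p : (Fin n → Bool) × (Fin (4 * n) → Bool), ∃ c,
    gq q = true :: c :: pairBits (List.ofFn p.2) (List.ofFn p.1) then some h.choose else none

theorem cmb_gK {κ : List Bool → List Bool} {q : List Bool} {c : Bool} {u : List Bool}
    (h : gq q = true :: c :: u) : cmb SB (gK κ) q = gK κ (true :: c :: u) := by
  match q with
  | [] => simp [gq] at h
  | false :: q => simp [gq] at h
  | true :: false :: q =>
    show gK κ (gq (true :: false :: q)) = _
    rw [h]
  | true :: true :: false :: q => simp [gq] at h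
  | true :: true :: true :: q =>
    show gK κ (gq (true :: true :: true :: q)) = _
    rw [h]
  | [true] => simp [gq] at h
  | [true, true] => simp [gq] at h

theorem keyedh {N n : ℕ} (hN : 2 ^ (9 * n + 4) ≤ N) (a : Fin N → Bool) :
    Keyed (fun (k : (Fin n → Bool) → (Fin (4 * n) → Bool)) (b : (Fin n → Bool) → Bool) =>
      OM (orc N (owr (seh n hN) a (fb (k, b))))) (tauh n) ∧
    ∀ (k : (Fin n → Bool) → (Fin (4 * n) → Bool)) (b : (Fin n → Bool) → Bool) (x : Fin n → Bool),
      orc N (owr (seh n hN) a (fb (k, b))) (kp (List.ofFn x) (4 * n)) = b x := by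
  classical
  obtain ⟨A, hA⟩ : ∃ A : ((Fin n → Bool) → (Fin (4 * n) → Bool)) → ((Fin n → Bool) → Bool) →
    Oracle, A = fun k b => orc N (owr (seh n hN) a (fb (k, b))) := ⟨_, rfl⟩
  have hA' : ∀ k b, orc N (owr (seh n hN) a (fb (k, b))) = A k b := by
    intro k b
    rw [hA]
  have hon : ∀ g k b, A k b (sth n g) = fb (k, b) g := by
    intro g k b
    rw [hA]
    beta_reduce
    unfold orc
    rw [dif_pos (show idx (sth n g) < N from (seh n hN g).2)]
    exact owr_e (seh_inj n hN) a _ g
  have hoff : ∀ s, (∀ g, s ≠ sth n g) → ∀ k b k' b', A k b s = A k' b' s := by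
    intro s hs k b k' b'
    rw [hA]
    beta_reduce
    unfold orc
    split_ifs with h
    · have h2 : ¬ ∃ g, seh n hN g = ⟨idx s, h⟩ := by
        rintro ⟨g, hg⟩
        exact hs g (idx_inj (congrArg Fin.val hg)).symm
      rw [owr_off _ _ h2, owr_off _ _ h2]
    · rfl
  have hval : ∀ z : List Bool, z.length ≠ n → ∀ k b k' b', val (A k b) z = val (A k' b') z := by
    intro z hz k b k' b'
    unfold val
    refine List.map_congr_left fun i _ => hoff _ (fun g hg => hz ?_) _ _ _ _
    match g with
    | Sum.inl g => rw [(kp_inj hg).1, List.length_ofFn]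
    | Sum.inr x => rw [(kp_inj hg).1, List.length_ofFn]
  have hvt : ∀ k b (x : Fin n → Bool), (val (A k b) (List.ofFn x)).take (4 * n) =
      List.ofFn (k x) := by
    intro k b x
    refine List.ext_getElem ?_ fun i h1 h2 => ?_
    · rw [List.length_take, length_val, List.length_ofFn, List.length_ofFn]
      omega
    · rw [List.getElem_take, List.getElem_ofFn]
      rw [List.length_ofFn] at h2
      have h3 : (val (A k b) (List.ofFn x))[i]'(by
          rw [length_val, List.length_ofFn]; omega) = A k b (kp (List.ofFn x) i) := by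
        simp only [val, List.getElem_map, List.getElem_range]
      rw [h3]
      exact hon (Sum.inl (x, ⟨i, h2⟩)) k b
  have hvb : ∀ k b (x : Fin n → Bool), (val (A k b) (List.ofFn x)).getD (4 * n) false = b x := by
    intro k b x
    have hl : 4 * n < (val (A k b) (List.ofFn x)).length := by
      rw [length_val, List.length_ofFn]
      omega
    rw [List.getD_eq_getElem _ _ hl]
    have h3 : (val (A k b) (List.ofFn x))[4 * n] = A k b (kp (List.ofFn x) (4 * n)) := by
      simp only [val, List.getElem_map, List.getElem_range]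
    rw [h3]
    exact hon (Sum.inr x) k b
  refine ⟨⟨?_, ?_⟩, fun k b x => ?_⟩
  · intro q hq k b k' b'
    simp only [hA']
    refine cmb_congr (fun _ _ => rfl) ?_
    by_cases hs : ∃ c u, gq q = true :: c :: u ∧ (unpair u).2.length = n
    · obtain ⟨c, u, hu, hz⟩ := hs
      obtain ⟨x, hx⟩ : ∃ x : Fin n → Bool, List.ofFn x = (unpair u).2 :=
        ⟨fun i => (unpair u).2.get (i.cast hz.symm), by
          refine List.ext_getElem (by rw [List.length_ofFn, hz]) fun i h3 h4 => ?_
          rw [List.getElem_ofFn]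
          rfl⟩
      have key : ∀ k b, gK (val (A k b)) (gq q) = false := by
        intro k b
        rw [hu, gK_cons, ← hx, decide_eq_false, Bool.false_and]
        intro he
        have hex : ∃ p : (Fin n → Bool) × (Fin (4 * n) → Bool), ∃ c,
            gq q = true :: c :: pairBits (List.ofFn p.2) (List.ofFn p.1) := by
          refine ⟨(x, k x), c, ?_⟩
          rw [hu, he]
          unfold kz
          rw [List.length_ofFn, hvt]
        unfold tauh at hq
        rw [dif_pos hex] at hq
        simp at hq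
      rw [key, key]
    · by_cases hs2 : ∃ c u, gq q = true :: c :: u
      · obtain ⟨c, u, hu⟩ := hs2
        refine gK_congr (hval _ (fun hz => hs ⟨c, u, hu, ?_⟩) _ _ _ _)
        rw [hu] at hz
        exact hz
      · have key : ∀ κ : List Bool → List Bool, gK κ (gq q) = false := by
          intro κ
          cases hg : gK κ (gq q) with
          | false => rfl
          | true =>
            obtain ⟨c, z, h⟩ := gK_true hg
            exact absurd ⟨c, _, h⟩ hs2
        rw [key, key]
  · intro q x u hτ
    unfold tauh at hτ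
    split_ifs at hτ with hex
    have hch := hex.choose_spec
    rw [Option.some.injEq] at hτ
    rw [hτ] at hch
    obtain ⟨c, hc⟩ := hch
    refine ⟨fun v => !c || v, fun k b => ?_⟩
    simp only [hA']
    show cmb SB (gK (val (A k b))) q = _
    rw [cmb_gK hc, gK_cons, unpair_pairBits]
    simp only
    unfold kz
    rw [List.length_ofFn, hvt, hvb]
    congr 1
    rw [decide_eq_decide]
    constructor
    · intro h
      have h1 := congrArg (fun s => (unpair s).1) h
      simp only [unpair_pairBits] at h1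
      exact (List.ofFn_injective h1).symm
    · intro h
      rw [h]
  · rw [hA']
    exact hon (Sum.inr x) k b

open Classical in
/-- the number of the inputs for which the algorithm is right -/
noncomputable def AGm (W : Oracle) (M : Alg) (n : ℕ) (h : List Bool) : ℝ :=
  ∑ x : Fin n → Bool, if (M.out (OM W) (pairBits (List.ofFn x) h) = some [true] ↔
    W (kp (List.ofFn x) (4 * n)) = true) then (1 : ℝ) else 0

open Classical in
theorem advm_prob {N n p : ℕ} (M : Alg) (h : List Bool)
    (hp : M.p.eval (2 * n + 1 + h.length) ≤ p) (hN : 2 ^ (9 * n + 4) ≤ N) {δ : ℝ}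
    (hδ : 0 < δ) : Ex unif (fun a : Fin N → Bool =>
      if (1 / 2 + δ) * 2 ^ n < AGm (orc N a) M n h then (1 : ℝ) else 0) ≤
      Real.exp (-(2 * δ ^ 2 * 2 ^ n) + p) := by
  rw [Ex_owr (seh n hN) (seh_inj n hN)]
  refine (Ex_mono unif_nn (G := fun _ => Real.exp (-(2 * δ ^ 2 * 2 ^ n) + p)) fun a => ?_).trans
    (le_of_eq (Ex_const unif_sm _))
  obtain ⟨hK, hb⟩ := keyedh hN a
  have h1 := key_tail (M := M) (y := fun x : Fin n → Bool => pairBits (List.ofFn x) h) hK (p := p)
    (fun x => by
      refine le_trans (eval_mono _ ?_) hp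
      rw [A2.length_pairBits, List.length_ofFn]
      omega) hδ
  rw [Ex_unif_av, ← (fbE (X := Fin n → Bool) (n := 4 * n)).sum_comp]
  have hX : (Fintype.card (Fin n → Bool) : ℝ) = 2 ^ n := by simp
  have e1 : ∀ ω : ((Fin n → Bool) → (Fin (4 * n) → Bool)) × ((Fin n → Bool) → Bool),
      (if (1 / 2 + δ) * 2 ^ n < AGm (orc N (owr (seh n hN) a (fbE ω))) M n h
        then (1 : ℝ) else 0) =
      if (1 / 2 + δ) * Fintype.card (Fin n → Bool) < ∑ x, (if (M.out
        (OM (orc N (owr (seh n hN) a (fb (ω.1, ω.2)))))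
        (pairBits (List.ofFn x) h) = some [true] ↔ ω.2 x = true) then (1 : ℝ) else 0)
          then (1 : ℝ) else 0 := by
    intro ω
    rw [hX]
    congr 1
    refine propext ?_
    unfold AGm
    have e2 : ∀ x : Fin n → Bool, orc N (owr (seh n hN) a (fbE ω))
        (kp (List.ofFn x) (4 * n)) = ω.2 x := fun x => hb ω.1 ω.2 x
    simp only [e2]
    rfl
  rw [Finset.sum_congr rfl fun ω _ => e1 ω]
  have hX' : Fintype.card (Fin n → Bool) = 2 ^ n := by simp
  have hG : Fintype.card (((Fin n → Bool) × Fin (4 * n)) ⊕ (Fin n → Bool)) =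
      2 ^ n * (4 * n) + 2 ^ n := by
    simp
  rw [hG, div_le_iff₀ (by positivity)]
  refine h1.trans ?_
  rw [hX']
  have e4 : (2 : ℝ) ^ (2 ^ n) * (2 ^ (4 * n)) ^ (2 ^ n) = 2 ^ (2 ^ n * (4 * n) + 2 ^ n) := by
    rw [← pow_mul, ← pow_add]
    congr 1
    ring
  rw [e4, mul_comm]
  apply mul_le_mul_of_nonneg_right _ (by positivity)
  apply Real.exp_le_exp.2
  push_cast
  have e3 : (2 : ℝ) ^ n * (2 ^ n * p / 2 ^ (4 * n)) ≤ p := by
    have h5 : (2 : ℝ) ^ (4 * n) = 2 ^ n * 2 ^ n * 2 ^ (2 * n) := by
      rw [← pow_add, ← pow_add]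
      congr 1
      omega
    have h6 : (2 : ℝ) ^ n * (2 ^ n * p / 2 ^ (4 * n)) = p / 2 ^ (2 * n) := by
      rw [h5]
      field_simp
    rw [h6]
    exact div_le_self (Nat.cast_nonneg _) (one_le_pow₀ (by norm_num))
  linarith

end Pool.Agent.W908.MS
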